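import Mathlib

set_option autoImplicit false

namespace Pool.Agent.Lib.MP_446da5_lc

open Set Filter Cardinal

/-- A normal measure on a well-ordered type. -/
structure Meas {X : Type} [LinearOrder X] (U : Ultrafilter X) : Prop where
  cnt : ∀ S : ℕ → Set X, (∀ n, S n ∈ U) → ⋂ n, S n ∈ U
  tail : ∀ α, Ioi α ∈ U
  diag : ∀ S : X → Set X, (∀ β, S β ∈ U) → {α | ∀ β < α, α ∈ S β} ∈ U

theorem Meas.biInter {X : Type} [LinearOrder X] {U : Ultrafilter X} (h : Meas U) {ι : Type*}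
    {T : Set ι} (hT : T.Countable) {S : ι → Set X} (hS : ∀ i ∈ T, S i ∈ U) :
    ⋂ i ∈ T, S i ∈ U := by
  rcases T.eq_empty_or_nonempty with rfl | hne
  · rw [biInter_empty]; exact Filter.univ_mem (f := (U : Filter X))
  · obtain ⟨f, rfl⟩ := hT.exists_eq_range hne
    rw [biInter_range]
    exact h.cnt _ fun n => hS _ ⟨n, rfl⟩

theorem Meas.no_desc {X : Type} [LinearOrder X] {U : Ultrafilter X} (h : Meas U)
    (g : ℕ → X → Ordinal.{0}) (hg : ∀ n, {α | g (n + 1) α < g n α} ∈ U) : False := by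
  obtain ⟨α, hα⟩ := Ultrafilter.nonempty_of_mem (h.cnt _ hg)
  exact (WellFounded.not_rel_apply_succ (r := (· < ·)) (fun n => g n α)).elim
    fun n hn => hn (mem_iInter.1 hα n)

theorem exists_meas {X : Type} (U : Ultrafilter X) [Uncountable X] (h1 : ∀ x, {x} ∉ U)
    [CardinalInterFilter (U : Filter X) #X] :
    ∃ (_ : LinearOrder X) (_ : WellFoundedLT X) (U' : Ultrafilter X), Meas U' := by
  classical
  obtain ⟨_, _, hord⟩ := Cardinal.exists_ord_eq_type_lt X
  have hX : ℵ₀ < #X := Cardinal.aleph0_lt_mk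
  have hcomp : ∀ {ι : Type} (S : ι → Set X), #ι < #X → (∀ i, S i ∈ U) → ⋂ i, S i ∈ U :=
    fun S hι hS => (cardinal_iInter_mem (l := (U : Filter X)) hι).2 hS
  have hwf : WellFounded fun g g' : X → X => {α | g α < g' α} ∈ U := by
    rw [wellFounded_iff_isEmpty_descending_chain]
    refine ⟨fun ⟨g, hg⟩ => ?_⟩
    obtain ⟨α, hα⟩ := Ultrafilter.nonempty_of_mem (hcomp _ (by simp) hg)
    exact (WellFounded.not_rel_apply_succ (r := (· < ·)) (fun n => g n α)).elim
      fun n hn => hn (mem_iInter.1 hα n)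
  obtain ⟨g, hg, hmin⟩ := hwf.has_min {g : X → X | ∀ β, {α | g α = β} ∉ U} ⟨id, h1⟩
  refine ⟨inferInstance, inferInstance, U.map g, fun S hS => ?_, fun β => ?_, fun S hS => ?_⟩
  · rw [Ultrafilter.mem_map, preimage_iInter]
    exact hcomp _ (by simp) hS
  · have hc : #(Iic β) < #X := by
      rw [← Iio_insert]
      exact mk_insert_le.trans_lt (add_lt_of_lt hX.le (Cardinal.mk_Iio_lt β hord)
        (one_lt_aleph0.trans hX))
    have := hcomp (fun γ : Iic β => {α | g α = γ}ᶜ) hc fun γ =>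
      Ultrafilter.compl_mem_iff_notMem.2 (hg γ)
    rw [Ultrafilter.mem_map]
    refine mem_of_superset this fun α hα => ?_
    by_contra hlt
    exact mem_iInter.1 hα ⟨g α, not_lt.1 hlt⟩ rfl
  · by_contra hn
    rw [← Ultrafilter.compl_mem_iff_notMem, Ultrafilter.mem_map] at hn
    have hf : ∀ α : X, ∃ β, α ∈ {α | ∀ β < α, α ∈ S β}ᶜ → β < α ∧ α ∉ S β := by
      intro α
      by_cases h : α ∈ {α | ∀ β < α, α ∈ S β}ᶜ
      · have h' := h
        simp only [mem_compl_iff, mem_ofPred_eq, not_forall] at h'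
        obtain ⟨β, h2, h3⟩ := h'
        exact ⟨β, fun _ => ⟨h2, h3⟩⟩
      · exact ⟨α, fun h' => absurd h' h⟩
    choose f hf using hf
    have hlt : {α | (f ∘ g) α < g α} ∈ U := mem_of_superset hn fun α hα => (hf _ hα).1
    have : ¬ ∀ β, {α | (f ∘ g) α = β} ∉ U := fun h => hmin _ h hlt
    push Not at this
    obtain ⟨β, hβ⟩ := this
    have h3 : g ⁻¹' S β ∈ U := Ultrafilter.mem_map.1 (hS β)
    obtain ⟨α, ⟨a, b⟩, c⟩ := Ultrafilter.nonempty_of_mem (inter_mem (inter_mem hn hβ) h3)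
    have b' : f (g α) = β := b
    exact (hf _ a).2 (b' ▸ c)

end Pool.Agent.Lib.MP_446da5_lc
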