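import Mathlib
import Pool.Agent.Lib.Common.Forcing.Model
import Pool.Agent.Lib.MP_446da5_lc.Big.CC

/-!
Names for the ideal generated by a normal measure in a forcing extension with a small chain condition.
-/

set_option autoImplicit false

namespace Pool.Agent.Lib.MP_446da5_lc

open Set Filter Pool.Agent.Lib.Common.Forcing Big

variable {P : Type} [Preorder P] {X : Type} [LinearOrder X] [WellFoundedLT X]

/-- The canonical name of a point of `X`. -/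
noncomputable def och (α : X) : Name P := oc (Ordinal.typein (α := X) (· < ·) α)

/-- The canonical name of the order type of `X`. -/
noncomputable def kap (X : Type) [LinearOrder X] [WellFoundedLT X] : Name P :=
  oc (Ordinal.type (α := X) (· < ·))

theorem fmem_och_iff {α β : X} {p : P} : Fmem (och α) (och β) p ↔ α < β := by
  rw [och, och, fmem_oc_iff, Ordinal.typein_lt_typein]

theorem feq_och_iff {α β : X} {p : P} : Feq (och α) (och β) p ↔ α = β := by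
  rw [och, och, feq_oc_iff, Ordinal.typein_inj]

theorem fmem_och_kap (α : X) (p : P) : Fmem (och α) (kap X) p :=
  fmem_oc_iff.2 (Ordinal.typein_lt_type _ _)

theorem kap_elim {ρ : Name P} {p q : P} (h : Fmem ρ (kap X) p) (hq : q ≤ p) :
    ∃ r ≤ q, ∃ α : X, Feq ρ (och α) r := by
  obtain ⟨r, hr, a, ha, h'⟩ := h.oc_elim hq
  obtain ⟨α, rfl⟩ := Ordinal.typein_surj _ ha
  exact ⟨r, hr, α, h'⟩

theorem fsub_och_kap (β : X) (p : P) : Fsub (och β) (kap X) p := fun ρ q _ h =>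
  Fmem.reg fun r hr => by
    obtain ⟨s, hs, a, ha, h'⟩ := h.oc_elim hr
    exact ⟨s, hs, (fmem_oc_of_lt (ha.trans (Ordinal.typein_lt_type _ _)) s).congr_left h'.symm⟩

/-- The name of a `P`-valued subset of `X`. -/
noncomputable def nm (W : X → P → Prop) : Name P := ⟨X, och, W⟩

/-- The `P`-valued subset of `X` given by a name. -/
def flat (ρ : Name P) (α : X) (q : P) : Prop := Fmem (och α) ρ q

theorem flat_nm_of {W : X → P → Prop} {α : X} {q : P} (h : W α q) : flat (nm W) α q :=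
  Fmem.intro α h (Feq.refl _ _)

theorem flat_nm_elim {W : X → P → Prop} (hm : ∀ α s r, W α s → r ≤ s → W α r) {α : X} {q : P}
    (h : flat (nm W) α q) : Dn (W α) q := fun r hr => by
  obtain ⟨s, hs, β, h1, h2⟩ := Fmem.elim hm h hr
  exact ⟨s, hs, feq_och_iff.1 h2 ▸ h1⟩

theorem fsub_nm_kap (W : X → P → Prop) (p : P) : Fsub (nm W) (kap X) p :=
  fsub_of_act fun i q _ _ => fmem_och_kap (X := X) i q

theorem fsub_of_flat {ρ η : Name P} {p : P} (h : Fsub ρ (kap X) p)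
    (h' : ∀ α : X, ∀ r ≤ p, flat ρ α r → flat η α r) : Fsub ρ η p := fun ζ q hq hm =>
  Fmem.reg fun r hr => by
    obtain ⟨s, hs, α, he⟩ := kap_elim (h ζ q hq hm) hr
    exact ⟨s, hs, Fmem.congr_left (h' α s (hs.trans (hr.trans hq))
      ((hm.mono (hs.trans hr)).congr_left he)) he.symm⟩

theorem feq_nm_flat {ρ : Name P} {p : P} (h : Fsub ρ (kap X) p) :
    Feq ρ (nm (flat (X := X) ρ)) p :=
  Feq.ext (fsub_of_flat h fun _ _ _ h' => flat_nm_of h')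
    (fsub_of_flat (fsub_nm_kap _ _) fun _ _ _ h' =>
      Fmem.reg (flat_nm_elim (W := flat ρ) (fun _ _ _ h hr => Fmem.mono h hr) h'))

variable (U : Ultrafilter X)

/-- The condition forces that the set meets every member of `U`. -/
def Pos (W : X → P → Prop) (q : P) : Prop := ∀ r ≤ q, ∀ S ∈ U, ∃ r' ≤ r, ∃ α ∈ S, W α r'

/-- The condition forces that `ρ` is a positive subset of `κ`. -/
def InQ (ρ : Name P) (q : P) : Prop := Fsub ρ (kap X) q ∧ Pos U (flat ρ) q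

/-- The name of the forcing of positive sets. -/
noncomputable def Qn : Name P := ⟨X → P → Prop, nm, fun W q => InQ U (nm W) q⟩

/-- The name of its order. -/
noncomputable def Rn : Name P :=
  ⟨(X → P → Prop) × (X → P → Prop), fun w => op (nm w.1) (nm w.2),
    fun w q => InQ U (nm w.1) q ∧ InQ U (nm w.2) q ∧ Fsub (nm w.1) (nm w.2) q⟩

/-- The name of the check name of an ordinal. -/
noncomputable def nuo : X → Name P :=
  (wellFounded_lt (α := X)).fix fun β ih => fam fun γ : Iio β => op (ih γ.1 γ.2) (kap X)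

omit [Preorder P] in
theorem nuo_eq (β : X) : (nuo β : Name P) = fam fun γ : Iio β => op (nuo γ.1) (kap X) := by
  conv_lhs => rw [nuo, WellFounded.fix_eq]
  rfl

/-- The name of the check name of a subset of `κ`. -/
noncomputable def Nn (X : Type) [LinearOrder X] [WellFoundedLT X] (ρ : Name P) : Name P :=
  ⟨X, fun β => op (nuo β) (kap X), flat ρ⟩

/-- The name of the canonical name of the generic filter. -/
noncomputable def Gam : Name P :=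
  ⟨X → P → Prop, fun W => op (Nn X (nm W)) (nm W), fun W q => InQ U (nm W) q⟩

variable {U}

omit [WellFoundedLT X] [LinearOrder X] in
theorem Pos.mono {W : X → P → Prop} {p q : P} (h : Pos U W p) (hq : q ≤ p) : Pos U W q :=
  fun r hr => h r (hr.trans hq)

omit [WellFoundedLT X] [LinearOrder X] in
theorem Pos.reg {W : X → P → Prop} {p : P} (h : Dn (Pos U W) p) : Pos U W p :=
  fun r hr S hS =>
    let ⟨s, hs, h'⟩ := h r hr
    let ⟨t, ht, h''⟩ := h' s le_rfl S hS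
    ⟨t, ht.trans hs, h''⟩

omit [WellFoundedLT X] [LinearOrder X] in
theorem Pos.imp {W W' : X → P → Prop} {p : P} (h : Pos U W p)
    (h' : ∀ α, ∀ r ≤ p, W α r → ∃ s ≤ r, W' α s) : Pos U W' p := fun r hr S hS =>
  let ⟨s, hs, α, hα, h1⟩ := h r hr S hS
  let ⟨t, ht, h2⟩ := h' α s (hs.trans hr) h1
  ⟨t, ht.trans hs, α, hα, h2⟩

omit [WellFoundedLT X] in
theorem null_of_neg_pos (hc : CC P) (hU : Meas U) {W : X → P → Prop}
    (hm : ∀ α s r, W α s → r ≤ s → W α r) {q : P} (h : Neg (Pos U W) q) :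
    {α | Neg (W α) q} ∈ U := by
  have key : ∀ r ≤ q, ∃ r' ≤ r, ∃ S ∈ U, ∀ α ∈ S, Neg (W α) r' := fun r hr => by
    have := h r hr
    simp only [Pos, not_forall, not_exists, not_and] at this
    obtain ⟨r', hr', T, hT, h'⟩ := this
    exact ⟨r', hr', T, hT, fun β hβ t ht => h' t ht β hβ⟩
  obtain ⟨e, he, hpre⟩ := hc {r | ∃ S ∈ U, ∀ α ∈ S, Neg (W α) r}
    (let ⟨r, _, h⟩ := key q le_rfl; ⟨r, h⟩)
  choose S hS hS' using he
  refine mem_of_superset (meas_cont hU S hS) fun α hα r hr hW => ?_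
  obtain ⟨r', hr', h'⟩ := key r hr
  obtain ⟨j, s, h1, h2⟩ := hpre r' h'
  exact hS' j α (mem_iInter.1 hα j) s h2 (hm α r s hW (h1.trans hr'))

theorem InQ.mono {ρ : Name P} {p q : P} (h : InQ U ρ p) (hq : q ≤ p) : InQ U ρ q :=
  ⟨h.1.mono hq, h.2.mono hq⟩

theorem InQ.congr {ρ ρ' : Name P} {p : P} (h : InQ U ρ p) (h' : Feq ρ ρ' p) : InQ U ρ' p :=
  ⟨h'.symm.fsub.trans h.1, h.2.imp fun _ r hr h1 => ⟨r, le_rfl, h1.congr_right (h'.mono hr)⟩⟩

theorem fmem_Qn {ρ : Name P} {q : P} : Fmem ρ (Qn U) q ↔ InQ U ρ q := by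
  constructor
  · intro h
    have h' : Dn (InQ U ρ) q := fun r hr => by
      obtain ⟨s, hs, W, h1, h2⟩ := Fmem.elim (fun W s r (h : InQ U (nm W) s) hr => h.mono hr) h hr
      exact ⟨s, hs, h1.congr h2.symm⟩
    exact ⟨Fsub.reg fun r hr => let ⟨s, hs, h⟩ := h' r hr; ⟨s, hs, h.1⟩,
      Pos.reg fun r hr => let ⟨s, hs, h⟩ := h' r hr; ⟨s, hs, h.2⟩⟩
  · intro h
    exact Fmem.intro (flat ρ) (h.congr (feq_nm_flat h.1)) (feq_nm_flat h.1)

theorem fmem_Rn {ρ ρ' : Name P} {q : P} (h : InQ U ρ q) (h' : InQ U ρ' q) (hs : Fsub ρ ρ' q) :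
    Fmem (op ρ ρ') (Rn U) q :=
  Fmem.intro (flat ρ, flat ρ') ⟨h.congr (feq_nm_flat h.1), h'.congr (feq_nm_flat h'.1),
    (feq_nm_flat h.1).symm.fsub.trans (hs.trans (feq_nm_flat h'.1).fsub)⟩
    (feq_op (feq_nm_flat h.1) (feq_nm_flat h'.1))

theorem feq_Nn {ρ ρ' : Name P} {q : P} (h : Feq ρ ρ' q) : Feq (Nn X ρ) (Nn X ρ') q := by
  have key : ∀ {ρ ρ' : Name P}, Feq ρ ρ' q → Fsub (Nn X ρ) (Nn X ρ') q := fun h =>
    fsub_of_act fun i r hr ⟨s, hs, h1⟩ =>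
      Fmem.intro i ((Fmem.mono h1 hs).congr_right (h.mono hr)) (Feq.refl _ _)
  exact Feq.ext (key h) (key h.symm)

theorem feq_nuo (β : X) (q : P) : Feq (nuo β) (Nn X (och β)) q := by
  rw [nuo_eq]
  refine Feq.ext (fsub_of_act fun i r _ _ => ?_) (fsub_of_act fun i r _ ⟨s, _, h1⟩ => ?_)
  · exact Fmem.intro i.1 (fmem_och_iff.2 i.2) (Feq.refl _ _)
  · exact fmem_fam (⟨i, fmem_och_iff.1 h1⟩ : Iio β) (Feq.refl _ _)

theorem fmem_Nn {ρ : Name P} {γ : X} {q : P} (h : flat ρ γ q) :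
    Fmem (op (Nn X (och γ)) (kap X)) (Nn X ρ) q :=
  Fmem.intro γ h (feq_op (feq_nuo γ q).symm (Feq.refl _ _))

theorem Nn_elim {ρ η : Name P} {q : P} (h : Fmem ρ (Nn X η) q) :
    ∃ r ≤ q, ∃ γ : X, flat η γ r ∧ Feq ρ (op (Nn X (och γ)) (kap X)) r := by
  obtain ⟨r, hr, γ, h1, h2⟩ := Fmem.elim (c := flat η) (fun _ _ _ h hr => Fmem.mono h hr) h le_rfl
  exact ⟨r, hr, γ, h1, h2.trans (feq_op (feq_nuo γ r) (Feq.refl _ _))⟩

theorem fmem_Gam {ρ : Name P} {q : P} (h : InQ U ρ q) : Fmem (op (Nn X ρ) ρ) (Gam U) q :=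
  Fmem.intro (flat ρ) (h.congr (feq_nm_flat h.1))
    (feq_op (feq_Nn (feq_nm_flat h.1)) (feq_nm_flat h.1))

/-- The condition forces that `f` is functional on `κ`. -/
def Good (X : Type) [LinearOrder X] [WellFoundedLT X] (f : Name P) (q : P) : Prop :=
  ∀ s ≤ q, ∀ (α : X) τ τ', Fmem (op (och α) τ) f s → Fmem (op (och α) τ') f s → Feq τ τ' s

theorem Good.mono {f : Name P} {p q : P} (h : Good X f p) (hq : q ≤ p) : Good X f q :=
  fun s hs => h s (hs.trans hq)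

/-- The condition forces that the value of `f` at `α` has rank `β`. -/
def ValRk (f : Name P) (α : X) (q : P) (β : Ordinal.{0}) : Prop :=
  Good X f q ∧ ∃ τ, Fmem (op (och α) τ) f q ∧ Rk τ β q

theorem ValRk.mono {f : Name P} {α : X} {β : Ordinal.{0}} {p q : P} (h : ValRk f α p β)
    (hq : q ≤ p) : ValRk f α q β :=
  let ⟨h1, τ, h2, h3⟩ := h
  ⟨h1.mono hq, τ, h2.mono hq, h3.mono hq⟩

/-- An enumeration of the possible ranks. -/
noncomputable def be (f : Name P) (α : X) : RR → Ordinal.{0} :=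
  Classical.epsilon fun e => {β | ∃ q, ValRk f α q β} ⊆ range e

theorem be_spec (hc : CC P) {f : Name P} {α : X} {q : P} {β : Ordinal.{0}}
    (h : ValRk f α q β) : ∃ n, be f α n = β := by
  have h2 : ∃ e : RR → Ordinal.{0}, {β | ∃ q, ValRk f α q β} ⊆ range e := by
    obtain ⟨e, he⟩ := hc.values (ValRk f α) (fun _ _ _ h hq => h.mono hq)
      fun p t t' ⟨a, τ, b, c⟩ ⟨_, τ', b', c'⟩ => c.eq_of_feq c' (a p le_rfl α τ τ' b b')
    exact ⟨e, fun β ⟨p, hp⟩ => he p β hp⟩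
  exact Classical.epsilon_spec h2 ⟨q, h⟩

/-- The `n`-th piece of the partition attached to `f`. -/
def An (f : Name P) (n : RR) (α : X) (q : P) : Prop := ValRk f α q (be f α n)

theorem exists_bound (hc : CC P) (hU : Meas U) (f : Name P) (α : X) :
    ∃ β : X, ∀ γ < α, ∀ δ : X, ∀ q, Good X f q → Fmem (op (och γ) (och δ)) f q → δ < β := by
  have : Nonempty X := ⟨α⟩
  choose e he using fun γ : X => hc.values
    (fun q (δ : X) => Good X f q ∧ Fmem (op (och γ) (och δ)) f q)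
    (fun _ _ _ h hq => ⟨h.1.mono hq, h.2.mono hq⟩)
    fun p t t' h h' => feq_och_iff.1 (h.1 p le_rfl γ _ _ h.2 h'.2)
  have h2 := hU.diag _ fun γ => meas_cont hU (fun j => Ioi (e γ j)) fun j => hU.tail _
  obtain ⟨β, h3, h4⟩ := Ultrafilter.nonempty_of_mem (inter_mem h2 (hU.tail α))
  refine ⟨β, fun γ hγ δ q a b => ?_⟩
  obtain ⟨j, rfl⟩ := he γ q δ ⟨a, b⟩
  exact mem_iInter.1 (h3 γ (hγ.trans h4)) j

/-- The consequences of the tasks used for the ideal. -/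
structure Rich (U : Ultrafilter X) (g : Gen P) : Prop where
  kap_mem : kap X ∈ g.N
  Qn_mem : Qn U ∈ g.N
  Rn_mem : Rn U ∈ g.N
  Gam_mem : Gam U ∈ g.N
  Nn_mem : ∀ η ∈ g.N, Nn X η ∈ g.N
  An_mem : ∀ f ∈ g.N, fam (fun n => nm (An (X := X) f n)) ∈ g.N
  tN : ∀ ρ ∈ g.N, ∀ η ∈ g.N, (∀ᶠ q in g.fil, Fmem ρ (Nn X η) q) → ∃ γ : X, och γ ∈ g.N ∧
    ∀ᶠ q in g.fil, flat η γ q ∧ Feq ρ (op (Nn X (och γ)) (kap X)) q
  reg1 : ∀ ρ ∈ g.N, ∀ f ∈ g.N, (∃ α : X, och α ∈ g.N ∧ ∀ᶠ q in g.fil, flat ρ α q ∧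
      ∀ β < α, Neg (Fmem (op (och α) (och β)) f) q) ∨
    ∀ᶠ q in g.fil, ∀ r ≤ q, ∀ α : X, flat ρ α r → ∃ β < α, ∃ s ≤ r,
      Fmem (op (och α) (och β)) f s
  reg2 : ∀ ρ ∈ g.N, ∀ f ∈ g.N, (∃ β : X, och β ∈ g.N ∧
      nm (fun (α : X) r => Fmem (op (och α) (och β)) f r) ∈ g.N ∧ ∀ᶠ q in g.fil,
      Pos U (fun α r => flat ρ α r ∧ Fmem (op (och α) (och β)) f r) q) ∨
    ∀ᶠ q in g.fil, ∀ β : X,
      Neg (Pos U (fun α r => flat ρ α r ∧ Fmem (op (och α) (och β)) f r)) q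
  good : ∀ f ∈ g.N, (∃ α : X, och α ∈ g.N ∧ ∃ τ ∈ g.N, ∃ τ' ∈ g.N, ∀ᶠ q in g.fil,
      Fmem (op (och α) τ) f q ∧ Fmem (op (och α) τ') f q ∧ Neg (Feq τ τ') q) ∨
    ∀ᶠ q in g.fil, Good X f q
  tot : ∀ f ∈ g.N, (∃ α : X, och α ∈ g.N ∧ ∀ᶠ q in g.fil,
      ∀ τ, Neg (Fmem (op (och α) τ) f) q) ∨
    ∀ᶠ q in g.fil, ∀ r ≤ q, ∀ α : X, ∃ τ, ∃ s ≤ r, Fmem (op (och α) τ) f s
  cov : ∀ ρ ∈ g.N, ∀ f ∈ g.N,
    (∃ n, nm (An (X := X) f n) ∈ g.N ∧
      ∀ᶠ q in g.fil, Pos U (fun α r => flat ρ α r ∧ An f n α r) q) ∨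
    ∀ᶠ q in g.fil, ∀ n, Neg (Pos U (fun α r => flat ρ α r ∧ An f n α r)) q
  desc : ∀ ζ ∈ g.N, ∀ f' ∈ g.N, ∀ f ∈ g.N,
    (∃ α : X, och α ∈ g.N ∧ ∃ τ' ∈ g.N, ∃ τ ∈ g.N, ∀ᶠ q in g.fil, flat ζ α q ∧
      Fmem (op (och α) τ') f' q ∧ Fmem (op (och α) τ) f q ∧ Neg (Fmem τ' τ) q) ∨
    ∀ᶠ q in g.fil, ∀ r ≤ q, ∀ (α : X) τ' τ, flat ζ α r → Fmem (op (och α) τ') f' r →
      Fmem (op (och α) τ) f r → Fmem τ' τ r
  bnd : ∀ f ∈ g.N, ∀ α : X, och α ∈ g.N → ∃ β : X, och β ∈ g.N ∧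
    ∀ γ < α, ∀ δ : X, ∀ q, Good X f q → Fmem (op (och γ) (och δ)) f q → δ < β

theorem exists_tasks_rich [Nonempty P] (hc : CC P) (hU : Meas U) :
    ∃ 𝒲 : Set (Job P), 𝒲.Countable ∧ ∀ g : Gen P, (∀ W ∈ 𝒲, g.Meets W) → Rich U g := by
  let F : List (Name P) → Set (Name P) := fun l =>
    {kap X, Qn U, Rn U, Gam U, Nn X (l.getD 0 emp),
      fam (fun n => nm (An (X := X) (l.getD 0 emp) n))}
  let t1 : Job P := fun l S q => ∃ γ : X, och γ ∈ S ∧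
    flat (l.getD 1 emp) γ q ∧ Feq (l.getD 0 emp) (op (Nn X (och γ)) (kap X)) q
  let t2 : Job P := fun l S q => ∃ α : X, och α ∈ S ∧ flat (l.getD 0 emp) α q ∧
      ∀ β < α, Neg (Fmem (op (och α) (och β)) (l.getD 1 emp)) q
  let t3 : Job P := fun l S q => ∃ β : X, och β ∈ S ∧
      nm (fun (α : X) r => Fmem (op (och α) (och β)) (l.getD 1 emp) r) ∈ S ∧
      Pos U (fun α r => flat (l.getD 0 emp) α r ∧ Fmem (op (och α) (och β)) (l.getD 1 emp) r) q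
  let t4 : Job P := fun l S q => ∃ α : X, och α ∈ S ∧ ∃ τ ∈ S, ∃ τ' ∈ S,
      Fmem (op (och α) τ) (l.getD 0 emp) q ∧ Fmem (op (och α) τ') (l.getD 0 emp) q ∧
      Neg (Feq τ τ') q
  let t5 : Job P := fun l S q => ∃ α : X, och α ∈ S ∧
      ∀ τ, Neg (Fmem (op (och α) τ) (l.getD 0 emp)) q
  let t6 : Job P := fun l S q => ∃ n, nm (An (X := X) (l.getD 1 emp) n) ∈ S ∧
      Pos U (fun α r => flat (l.getD 0 emp) α r ∧ An (l.getD 1 emp) n α r) q
  let t7 : Job P := fun l S q => ∃ α : X, och α ∈ S ∧ ∃ τ' ∈ S, ∃ τ ∈ S,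
      flat (l.getD 0 emp) α q ∧ Fmem (op (och α) τ') (l.getD 1 emp) q ∧
      Fmem (op (och α) τ) (l.getD 2 emp) q ∧ Neg (Fmem τ' τ) q
  let t8 : Job P := fun l S _ => ∀ α : X, och α = l.getD 1 emp → ∃ β : X, och β ∈ S ∧
    ∀ γ < α, ∀ δ : X, ∀ q, Good X (l.getD 0 emp) q →
      Fmem (op (och γ) (och δ)) (l.getD 0 emp) q → δ < β
  refine ⟨{fun l S _ => F l ⊆ S, t1, t2, t3, t4, t5, t6, t7, t8}, (toFinite _).countable,
    fun g hg => ?_⟩
  have m0 := PreGen.Meets.closed (F := F) (fun l => (toFinite _).countable) (hg _ (by simp))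
  refine ⟨m0 [] (by simp) (by simp [F]), m0 [] (by simp) (by simp [F]),
    m0 [] (by simp) (by simp [F]), m0 [] (by simp) (by simp [F]),
    fun η hη => m0 [η] (Gen.l1 hη) (by simp [F]), fun η hη => m0 [η] (Gen.l1 hη) (by simp [F]),
    fun ρ hρ η hη h => ?_, fun ρ hρ f hf => ?_, fun ρ hρ f hf => ?_, fun f hf => ?_,
    fun f hf => ?_, fun ρ hρ f hf => ?_, fun ζ hζ f' hf' f hf => ?_, fun f hf α hα => ?_⟩
  · obtain ⟨n, ⟨S, hS, γ, a, b, c⟩ | h'⟩ := hg t1 (by simp) [ρ, η] (Gen.l2 hρ hη)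
    · exact ⟨γ, hS a, n, fun q hq => ⟨Fmem.mono b hq, c.mono hq⟩⟩
    · obtain ⟨q, h1, h2⟩ := (h.and (show ∀ᶠ q in g.fil, q ≤ g.h n from
        ⟨n, fun _ h => h⟩)).exists
      obtain ⟨r, hr, γ, a, b⟩ := Nn_elim h1
      exact absurd ⟨γ, rfl, a, b⟩ (h' r (hr.trans h2) {och γ} (countable_singleton _))
  · obtain ⟨n, ⟨S, hS, α, a, b, c⟩ | h'⟩ := hg t2 (by simp) [ρ, f] (Gen.l2 hρ hf)
    · exact Or.inl ⟨α, hS a, n, fun q hq => ⟨Fmem.mono b hq, fun β hβ => (c β hβ).mono hq⟩⟩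
    · refine Or.inr ⟨n, fun q hq r hr α hα => ?_⟩
      by_contra hcon
      exact h' r (hr.trans hq) {och α} (countable_singleton _)
        ⟨α, rfl, hα, fun β hβ s hs h => hcon ⟨β, hβ, s, hs, h⟩⟩
  · obtain ⟨n, ⟨S, hS, β, a, b, c⟩ | h'⟩ := hg t3 (by simp) [ρ, f] (Gen.l2 hρ hf)
    · exact Or.inl ⟨β, hS a, hS b, n, fun q hq => c.mono hq⟩
    · exact Or.inr ⟨n, fun q hq β r hr h => h' r (hr.trans hq) {_, _} (toFinite _).countable
        ⟨β, Or.inl rfl, Or.inr rfl, h⟩⟩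
  · obtain ⟨n, ⟨S, hS, α, a, τ, b, τ', c, d, e, k⟩ | h'⟩ := hg t4 (by simp) [f] (Gen.l1 hf)
    · exact Or.inl ⟨α, hS a, τ, hS b, τ', hS c, n, fun q hq => ⟨d.mono hq, e.mono hq, k.mono hq⟩⟩
    · refine Or.inr ⟨n, fun q hq s hs α τ τ' a b => Feq.reg (dn_of_not_neg fun r hr h => ?_)⟩
      exact h' r (hr.trans (hs.trans hq)) {och α, τ, τ'} (toFinite _).countable
        ⟨α, by simp, τ, by simp, τ', by simp, a.mono hr, b.mono hr, h⟩
  · obtain ⟨n, ⟨S, hS, α, a, b⟩ | h'⟩ := hg t5 (by simp) [f] (Gen.l1 hf)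
    · exact Or.inl ⟨α, hS a, n, fun q hq τ => (b τ).mono hq⟩
    · refine Or.inr ⟨n, fun q hq r hr α => ?_⟩
      by_contra hcon
      exact h' r (hr.trans hq) {och α} (countable_singleton _)
        ⟨α, rfl, fun τ s hs h => hcon ⟨τ, s, hs, h⟩⟩
  · obtain ⟨n, ⟨S, hS, k, b, a⟩ | h'⟩ := hg t6 (by simp) [ρ, f] (Gen.l2 hρ hf)
    · exact Or.inl ⟨k, hS b, n, fun q hq => a.mono hq⟩
    · exact Or.inr ⟨n, fun q hq k r hr h => h' r (hr.trans hq) {_} (countable_singleton _)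
        ⟨k, rfl, h⟩⟩
  · obtain ⟨n, ⟨S, hS, α, a, τ', b, τ, c, d, e, k, m⟩ | h'⟩ :=
      hg t7 (by simp) [ζ, f', f] (Gen.l3 hζ hf' hf)
    · exact Or.inl ⟨α, hS a, τ', hS b, τ, hS c, n, fun q hq =>
        ⟨Fmem.mono d hq, e.mono hq, k.mono hq, m.mono hq⟩⟩
    · refine Or.inr ⟨n, fun q hq s hs α τ' τ a b c => Fmem.reg (dn_of_not_neg fun r hr h => ?_)⟩
      exact h' r (hr.trans (hs.trans hq)) {och α, τ', τ} (toFinite _).countable
        ⟨α, by simp, τ', by simp, τ, by simp, Fmem.mono a hr, b.mono hr, c.mono hr, h⟩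
  · obtain ⟨n, ⟨S, hS, h⟩ | h'⟩ := hg t8 (by simp) [f, och α] (Gen.l2 hf hα)
    · obtain ⟨β, a, b⟩ := h α rfl
      exact ⟨β, hS a, b⟩
    · obtain ⟨β, hβ⟩ := exists_bound hc hU f α
      refine absurd (fun α' hα' => ⟨β, rfl, ?_⟩) (h' _ le_rfl {och β} (countable_singleton _))
      have : α' = α := (feq_och_iff (p := g.h 0)).1 (by
        rw [show (och α' : Name P) = och α from hα']; exact Feq.refl _ _)
      rw [this]
      exact hβ

end Pool.Agent.Lib.MP_446da5_lc
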