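import Mathlib
import Pool.Agent.Lib.Common.Forcing.Defs

set_option autoImplicit false

namespace Pool.Agent.Lib.MP_446da5_lc

open ZFSet

/-- `κ` is a regular uncountable cardinal of the transitive model `M`. -/
def RegUnc (M κ : ZFSet.{0}) : Prop :=
  κ ∈ M ∧ κ.IsOrdinal ∧ omega ∈ κ ∧
    ∀ f ∈ M, ∀ α ∈ κ, IsFunc α κ f → ∃ β ∈ κ, ∀ x y, pair x y ∈ f → y ∈ β

/-- `(Q, R)` is a forcing notion in `M`; `pair q p ∈ R` means `q ≤ p`. -/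
def IsForcing (M Q R : ZFSet.{0}) : Prop :=
  Q ∈ M ∧ R ∈ M ∧ (∃ p, p ∈ Q) ∧ (∀ p ∈ Q, pair p p ∈ R) ∧
    ∀ p ∈ Q, ∀ q ∈ Q, ∀ r ∈ Q, pair r q ∈ R → pair q p ∈ R → pair r p ∈ R

/-- Every decreasing sequence of conditions of length less than `ω` has a lower bound. -/
def ClosedLtOmega (Q R : ZFSet.{0}) : Prop :=
  ∀ (n : ℕ) (p : ℕ → ZFSet.{0}), (∀ i < n, p i ∈ Q) →
    (∀ i j, i < j → j < n → pair (p j) (p i) ∈ R) → ∃ q ∈ Q, ∀ i < n, pair q (p i) ∈ R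

/-- `G` is an `M`-generic filter on `(Q, R)`. -/
structure Generic (M Q R : ZFSet.{0}) (G : Set ZFSet.{0}) : Prop where
  sub : ∀ p ∈ G, p ∈ Q
  up : ∀ p ∈ G, ∀ q ∈ Q, pair p q ∈ R → q ∈ G
  dir : ∀ p ∈ G, ∀ q ∈ G, ∃ r ∈ G, pair r p ∈ R ∧ pair r q ∈ R
  meets : ∀ D ∈ M, D ⊆ Q → (∀ p ∈ Q, ∃ q ∈ D, pair q p ∈ R) → ∃ q ∈ G, q ∈ D

/-- `v` is the evaluation of names by `G`, so that `M[G] = {v τ | τ ∈ M}`. -/
def IsVal (G : Set ZFSet.{0}) (v : ZFSet.{0} → ZFSet.{0}) : Prop :=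
  ∀ τ y, y ∈ v τ ↔ ∃ σ, ∃ p ∈ G, pair σ p ∈ τ ∧ y = v σ

/-- `U` is an `M`-normal (uniform) `M`-ultrafilter on `κ`. -/
structure NormalUF (M κ U : ZFSet.{0}) : Prop where
  sub : ∀ A ∈ U, A ∈ M ∧ A ⊆ κ
  top : κ ∈ U
  proper : ∅ ∉ U
  up : ∀ A ∈ U, ∀ B ∈ M, A ⊆ B → B ⊆ κ → B ∈ U
  inter : ∀ A ∈ U, ∀ B ∈ U, A ∩ B ∈ U
  ultra : ∀ A ∈ M, A ⊆ κ → A ∈ U ∨ κ \ A ∈ U
  unif : ∀ α ∈ κ, α ∉ U
  normal : ∀ f ∈ M, ∀ A ∈ U, (∀ α ∈ A, ∃ β ∈ α, pair α β ∈ f) →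
    ∃ β, ∃ B ∈ U, ∀ α ∈ B, pair α β ∈ f

/-- The ultrapower of `M` by `U` is well-founded: there is no sequence of functions
`f n ∈ M` on `κ` that is `∈`-descending modulo `U`. -/
def WFUlt (M κ U : ZFSet.{0}) : Prop :=
  ¬ ∃ f : ℕ → ZFSet.{0}, (∀ n, f n ∈ M ∧ ∀ α ∈ κ, ∃! y, pair α y ∈ f n) ∧
    ∀ n, ∃ A ∈ U, ∀ α ∈ A, ∀ y z, pair α y ∈ f (n + 1) → pair α z ∈ f n → y ∈ z

/-- In `M`, `κ` is generically measurable as witnessed by `(Q, R)`: every generic extension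
`M[G]` contains an `M`-normal `M`-ultrafilter on `κ` with well-founded ultrapower. -/
def GenMeas (M κ Q R : ZFSet.{0}) : Prop :=
  ∀ G, Generic M Q R G → ∃ v, IsVal G v ∧ ∃ τ ∈ M, NormalUF M κ (v τ) ∧ WFUlt M κ (v τ)

/-- The set coding the finite sequence of cuts `(A i, B i)`, `i ≤ n`. -/
noncomputable def finCuts (A B : ℕ → ZFSet.{0}) (n : ℕ) : ZFSet.{0} :=
  range fun i : Fin (n + 1) => pair ((i : ℕ) : Ordinal.{0}).toZFSet (pair (A i) (B i))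

/-- The set coding the infinite sequence of cuts `(A i, B i)`, `i < ω`. -/
noncomputable def allCuts (A B : ℕ → ZFSet.{0}) : ZFSet.{0} :=
  range fun i : ℕ => pair (i : Ordinal.{0}).toZFSet (pair (A i) (B i))

/-- The current set `D n`. -/
def cur (κ : ZFSet.{0}) (C : ℕ → ZFSet.{0}) : ℕ → ZFSet.{0}
  | 0 => κ
  | n + 1 => C n

/-- In round `n` Cut splits the current set into two disjoint pieces. -/
def Legal (κ : ZFSet.{0}) (A B C : ℕ → ZFSet.{0}) (n : ℕ) : Prop :=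
  A n ∩ B n = ∅ ∧ A n ∪ B n = cur κ C n

/-- In round `n` Choose answers with one of the two pieces, according to `σ`. -/
def Follows (σ : ZFSet.{0}) (A B C : ℕ → ZFSet.{0}) (n : ℕ) : Prop :=
  (C n = A n ∨ C n = B n) ∧ pair (finCuts A B n) (C n) ∈ σ

/-- In `M`, Choose has a winning strategy `σ` in the game `U(κ, ≤ω)`: at each position reached
according to `σ` it has an answer, which is never a singleton, and every run in `M` according to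
`σ` has nonempty intersection. -/
def ChooseWinsIn (M κ : ZFSet.{0}) : Prop :=
  ∃ σ ∈ M, ∀ A B C : ℕ → ZFSet.{0}, (∀ i, A i ∈ M ∧ B i ∈ M) →
    (∀ n, (∀ i < n, Legal κ A B C i ∧ Follows σ A B C i) → Legal κ A B C n →
      (pair (finCuts A B n) (A n) ∈ σ ∨ pair (finCuts A B n) (B n) ∈ σ) ∧
      (Follows σ A B C n → ∀ x, C n ≠ {x})) ∧
    (allCuts A B ∈ M → (∀ n, Legal κ A B C n ∧ Follows σ A B C n) → ∃ x, ∀ n, x ∈ C n)

end Pool.Agent.Lib.MP_446da5_lc
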