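import Mathlib
import Pool.Agent.Lib.Common.Forcing.Bounded
import Pool.Agent.Lib.MP_446da5_lc.Ideal
import Pool.Agent.Lib.MP_446da5_lc.ModelDefs

/-!
In the model, `κ` is regular uncountable and generically measurable.
-/

set_option autoImplicit false

namespace Pool.Agent.Lib.MP_446da5_lc

open Set Filter Pool.Agent.Lib.Common.Forcing Big

variable {P : Type} [Preorder P] {X : Type} [LinearOrder X] [WellFoundedLT X]
  {U : Ultrafilter X} {g : Gen P}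

theorem exists_of_mem_och {β : X} (h : och β ∈ g.N) {x : ZFSet.{0}} (hx : x ∈ g.π (och β)) :
    ∃ γ < β, och γ ∈ g.N ∧ g.π (och γ) = x := by
  obtain ⟨a, ha, h1, h2⟩ := Gen.exists_of_mem_π_oc h hx
  obtain ⟨γ, rfl⟩ := Ordinal.typein_surj _ (ha.trans (Ordinal.typein_lt_type _ β))
  exact ⟨γ, (Ordinal.typein_lt_typein _).1 ha, h1, h2⟩

theorem π_och_mem_iff {α β : X} (ha : och α ∈ g.N) (hb : och β ∈ g.N) :
    g.π (och α) ∈ g.π (och β) ↔ α < β := by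
  rw [Gen.π_mem_iff ha hb]
  simp [fmem_och_iff]

namespace Rich

variable (h : Rich U g)
include h

theorem mem_K {x : ZFSet.{0}} :
    x ∈ g.π (kap X) ↔ ∃ α : X, och α ∈ g.N ∧ g.π (och α) = x := by
  constructor
  · intro hx
    obtain ⟨a, ha, h1, h2⟩ := Gen.exists_of_mem_π_oc h.kap_mem hx
    obtain ⟨α, rfl⟩ := Ordinal.typein_surj _ ha
    exact ⟨α, h1, h2⟩
  · rintro ⟨α, h1, rfl⟩
    exact (Gen.π_mem_iff h1 h.kap_mem).2 (Eventually.of_forall fun q => fmem_och_kap α q)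

theorem K_ord : (g.π (kap X)).IsOrdinal := Gen.isOrdinal_π_oc _ h.kap_mem

theorem mem_Q {ρ : Name P} (hρ : ρ ∈ g.N) :
    g.π ρ ∈ g.π (Qn U) ↔ ∀ᶠ q in g.fil, InQ U ρ q := by
  rw [Gen.π_mem_iff hρ h.Qn_mem]
  simp only [fmem_Qn]

theorem exists_Q {x : ZFSet.{0}} (hx : x ∈ g.π (Qn U)) :
    ∃ ρ ∈ g.N, g.π ρ = x ∧ ∀ᶠ q in g.fil, InQ U ρ q := by
  obtain ⟨ρ, a, rfl, -⟩ := Gen.exists_of_mem_π hx
  exact ⟨ρ, a, rfl, (h.mem_Q a).1 hx⟩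

theorem Q_sub {x : ZFSet.{0}} (hx : x ∈ g.π (Qn U)) : x ∈ g.M ∧ x ⊆ g.π (kap X) := by
  obtain ⟨ρ, a, rfl, b⟩ := h.exists_Q hx
  exact ⟨Gen.π_mem_M a, (Gen.π_sub_iff a h.kap_mem).2 (b.mono fun q hq => hq.1)⟩

theorem mem_R {x y : ZFSet.{0}} : ZFSet.pair x y ∈ g.π (Rn U) ↔
    x ∈ g.π (Qn U) ∧ y ∈ g.π (Qn U) ∧ x ⊆ y := by
  constructor
  · intro hx
    obtain ⟨w, h1, h2, h3⟩ := Gen.exists_child h.Rn_mem hx
    have h4 := Gen.of_op_mem (σ := nm w.1) (τ := nm w.2) h1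
    have h5 : ZFSet.pair (g.π (nm w.1)) (g.π (nm w.2)) = ZFSet.pair x y :=
      (Gen.π_op h4.1 h4.2).symm.trans h2
    obtain ⟨rfl, rfl⟩ := ZFSet.pair_inj.1 h5
    exact ⟨(h.mem_Q h4.1).2 (h3.mono fun q ⟨s, hs, hq⟩ => hq.1.mono hs),
      (h.mem_Q h4.2).2 (h3.mono fun q ⟨s, hs, hq⟩ => hq.2.1.mono hs),
      (Gen.π_sub_iff h4.1 h4.2).2 (h3.mono fun q ⟨s, hs, hq⟩ => hq.2.2.mono hs)⟩
  · rintro ⟨hx, hy, hxy⟩
    obtain ⟨ρ, a, rfl, b⟩ := h.exists_Q hx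
    obtain ⟨ρ', a', rfl, b'⟩ := h.exists_Q hy
    refine (Gen.pair_mem_iff a a' h.Rn_mem).2 ?_
    filter_upwards [b, b', (Gen.π_sub_iff a a').1 hxy] with q c d e using fmem_Rn c d e

theorem K_mem_Q : g.π (kap X) ∈ g.π (Qn U) :=
  (h.mem_Q h.kap_mem).2 (Eventually.of_forall fun _ => ⟨fun _ _ _ h => h, fun r _ _ hS =>
    let ⟨α, hα⟩ := Ultrafilter.nonempty_of_mem hS
    ⟨r, le_rfl, α, hα, fmem_och_kap α r⟩⟩)

theorem up_Q {x y : ZFSet.{0}} (hx : x ∈ g.π (Qn U)) (hy : y ∈ g.M) (hxy : x ⊆ y)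
    (hK : y ⊆ g.π (kap X)) : y ∈ g.π (Qn U) := by
  obtain ⟨ρ, a, rfl, b⟩ := h.exists_Q hx
  obtain ⟨η, a', rfl⟩ := Gen.mem_M.1 hy
  refine (h.mem_Q a').2 ?_
  filter_upwards [b, (Gen.π_sub_iff a a').1 hxy, (Gen.π_sub_iff a' h.kap_mem).1 hK] with q c d e
  exact ⟨e, c.2.imp fun α r hr h1 => ⟨r, le_rfl, d _ r hr h1⟩⟩

theorem inter_Q {ρ η : Name P} (a : ρ ∈ g.N) (a' : η ∈ g.N) (hK : g.π ρ ⊆ g.π (kap X))
    (hp : ∀ᶠ q in g.fil, Pos U (fun α r => flat ρ α r ∧ flat η α r) q) :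
    g.π ρ ∩ g.π η ∈ g.π (Qn U) := by
  obtain ⟨ζ, b, hζ⟩ := Gen.mem_M.1 (Gen.isCTM.inter_mem (Gen.π_mem_M a) (Gen.π_mem_M a'))
  have h1 : Sat g.M (.all (.imp (.mem 0 1) (.imp (.mem 0 2) (.mem 0 3)))) ([ρ, η, ζ].map g.π) :=
    fun y _ h1 h2 => by
      show y ∈ g.π ζ
      rw [hζ]; exact ZFSet.mem_inter.2 ⟨h1, h2⟩
  have h2 : g.π ζ ⊆ g.π (kap X) := fun y hy => hK (ZFSet.mem_inter.1 (hζ ▸ hy)).1
  rw [← hζ]
  refine (h.mem_Q b).2 ?_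
  filter_upwards [hp, (Gen.truth _ (Gen.l3 a a' b)).1 h1, (Gen.π_sub_iff b h.kap_mem).1 h2]
    with q c d e
  exact ⟨e, c.imp fun α r hr h1 => ⟨r, le_rfl, d (och α) r hr h1.1 r le_rfl h1.2⟩⟩

theorem null_of_not_mem (hc : CC P) (hU : Meas U) {η : Name P} (a : η ∈ g.N)
    (hK : g.π η ⊆ g.π (kap X)) (hn : g.π η ∉ g.π (Qn U)) :
    ∀ᶠ q in g.fil, {α | Neg (flat η α) q} ∈ U := by
  rcases Gen.dec_mem a h.Qn_mem with h1 | h1
  · exact absurd ((Gen.π_mem_iff a h.Qn_mem).2 h1) hn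
  · filter_upwards [h1, (Gen.π_sub_iff a h.kap_mem).1 hK] with q b c
    exact null_of_neg_pos hc hU (W := flat η) (fun _ _ _ h hr => Fmem.mono h hr)
      fun r hr hp => b r hr (fmem_Qn.2 ⟨c.mono hr, hp⟩)

theorem split_Q (hc : CC P) (hU : Meas U) {x y : ZFSet.{0}} (hx : x ∈ g.π (Qn U))
    (hy : y ∈ g.M) : x ∩ y ∈ g.π (Qn U) ∨ x \ y ∈ g.π (Qn U) := by
  by_contra hcon
  push Not at hcon
  obtain ⟨hxM, hxK⟩ := h.Q_sub hx
  obtain ⟨η, a, e⟩ := Gen.mem_M.1 (Gen.isCTM.inter_mem hxM hy)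
  obtain ⟨η', a', e'⟩ := Gen.mem_M.1 (Gen.isCTM.sdiff_mem hxM hy)
  obtain ⟨ρ, b, rfl, c⟩ := h.exists_Q hx
  have h1 := h.null_of_not_mem hc hU a (fun t ht => hxK (ZFSet.mem_inter.1 (e ▸ ht)).1)
    (e ▸ hcon.1)
  have h2 := h.null_of_not_mem hc hU a' (fun t ht => hxK (ZFSet.mem_sdiff.1 (e' ▸ ht)).1)
    (e' ▸ hcon.2)
  have h3 : Sat g.M (.all (.imp (.mem 0 1) (.imp (.imp (.mem 0 2) .bot) (.mem 0 3))))
      ([ρ, η, η'].map g.π) := fun t _ h1 h2 => by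
    show t ∈ g.π η'
    rw [e']
    exact ZFSet.mem_sdiff.2 ⟨h1, fun h3 => h2 (show t ∈ g.π η by
      rw [e]; exact ZFSet.mem_inter.2 ⟨h1, h3⟩)⟩
  obtain ⟨q, c1, c2, c3, c4⟩ :=
    (c.and (h1.and (h2.and ((Gen.truth _ (Gen.l3 b a a')).1 h3)))).exists
  obtain ⟨r, hr, α, ⟨d1, d2⟩, d3⟩ := c1.2 q le_rfl _ (inter_mem c2 c3)
  exact d2 r hr (c4 (och α) r hr d3 r le_rfl fun s hs h' => d1 s (hs.trans hr) h')

theorem nonempty_Q {x : ZFSet.{0}} (hx : x ∈ g.π (Qn U)) : x ≠ ∅ := by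
  rintro rfl
  rw [← Gen.π_emp (g := g), h.mem_Q g.emp_mem] at hx
  obtain ⟨q, hq⟩ := hx.exists
  obtain ⟨r, -, α, -, h'⟩ := hq.2 q le_rfl _ univ_mem
  exact not_fmem_emp _ _ h'

theorem bdd_not_Q (hU : Meas U) {x : ZFSet.{0}} (hx : x ∈ g.π (kap X)) : x ∉ g.π (Qn U) := by
  obtain ⟨β, a, rfl⟩ := h.mem_K.1 hx
  rw [h.mem_Q a]
  intro hq
  obtain ⟨q, hq⟩ := hq.exists
  obtain ⟨r, -, α, hα, h'⟩ := hq.2 q le_rfl _ (hU.tail β)
  exact lt_asymm hα (fmem_och_iff.1 h')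

theorem normal_Q (hc : CC P) (hU : Meas U) {x f : ZFSet.{0}} (hx : x ∈ g.π (Qn U))
    (hf : f ∈ g.M) (hreg : ∀ α ∈ x, ∃ β ∈ α, ZFSet.pair α β ∈ f) :
    ∃ β ∈ g.M, ∃ y ∈ g.π (Qn U), y ⊆ x ∧ ∀ α ∈ y, ZFSet.pair α β ∈ f := by
  have hxK := (h.Q_sub hx).2
  obtain ⟨ρ, a, rfl, b⟩ := h.exists_Q hx
  obtain ⟨φ, a', rfl⟩ := Gen.mem_M.1 hf
  rcases h.reg1 ρ a φ a' with ⟨α, c, d⟩ | h1
  · obtain ⟨z, hz, hz'⟩ := hreg _ ((Gen.π_mem_iff c a).2 (d.mono fun q hq => hq.1))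
    obtain ⟨β, hβ, e, rfl⟩ := exists_of_mem_och c hz
    exact (PreGen.ev_not_neg ((Gen.pair_mem_iff c e a').1 hz') (d.mono fun q hq => hq.2 β hβ)).elim
  rcases h.reg2 ρ a φ a' with ⟨β, c, d, e⟩ | h2
  · refine ⟨_, Gen.π_mem_M c, _, h.inter_Q a d hxK (e.mono fun q hq => hq.imp fun α r _ h' =>
      ⟨r, le_rfl, h'.1, flat_nm_of h'.2⟩), fun t ht => (ZFSet.mem_inter.1 ht).1, fun t ht => ?_⟩
    obtain ⟨i, h3, rfl, h4⟩ := Gen.exists_child d (ZFSet.mem_inter.1 ht).2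
    exact (Gen.pair_mem_iff (σ := och (X := X) i) h3 c a').2
      (h4.mono fun q ⟨s, hs, hq⟩ => Fmem.mono hq hs)
  · exfalso
    obtain ⟨q, c1, c2, c3⟩ := (b.and (h1.and h2)).exists
    have := hU.diag _ fun β => null_of_neg_pos hc hU
      (W := fun α r => flat ρ α r ∧ Fmem (op (och α) (och β)) φ r)
      (fun _ _ _ h hr => ⟨Fmem.mono h.1 hr, h.2.mono hr⟩) (c3 β)
    obtain ⟨r, hr, α, d1, d2⟩ := c1.2 q le_rfl _ this
    obtain ⟨β, hβ, s, hs, d3⟩ := c2 r hr α d2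
    exact d1 β hβ s (hs.trans hr) ⟨Fmem.mono d2 hs, d3⟩

theorem ev_good {φ : Name P} (a : φ ∈ g.N) (hf : ∀ α ∈ g.π (kap X), ∀ y z,
    ZFSet.pair α y ∈ g.π φ → ZFSet.pair α z ∈ g.π φ → y = z) : ∀ᶠ q in g.fil, Good X φ q := by
  rcases h.good φ a with ⟨α, b, τ, c, τ', d, e⟩ | h1
  · have := hf _ (h.mem_K.2 ⟨α, b, rfl⟩) _ _
      ((Gen.pair_mem_iff b c a).2 (e.mono fun q hq => hq.1))
      ((Gen.pair_mem_iff b d a).2 (e.mono fun q hq => hq.2.1))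
    exact (PreGen.ev_not_neg ((Gen.π_eq_iff c d).1 this) (e.mono fun q hq => hq.2.2)).elim
  · exact h1

theorem regUnc [Uncountable X] : RegUnc g.M (g.π (kap X)) := by
  refine ⟨Gen.π_mem_M h.kap_mem, h.K_ord, ?_, fun f hf x hx hfun => ?_⟩
  · rw [← Gen.π_omega (g := g)]
    refine (Gen.π_oc_mem_iff g.omega_mem h.kap_mem).2 ?_
    by_contra hc
    have := Ordinal.card_le_card (not_lt.1 hc)
    rw [Ordinal.card_type, Ordinal.card_omega0] at this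
    exact absurd this (not_le.2 Cardinal.aleph0_lt_mk)
  · obtain ⟨φ, a, rfl⟩ := Gen.mem_M.1 hf
    obtain ⟨α, b, rfl⟩ := h.mem_K.1 hx
    have hg := h.ev_good a fun t _ y z h1 h2 =>
      (hfun.2 t (ZFSet.pair_mem_prod.1 (hfun.1 h1)).1).unique h1 h2
    obtain ⟨β, c, d⟩ := h.bnd φ a α b
    refine ⟨_, h.mem_K.2 ⟨β, c, rfl⟩, fun y z hyz => ?_⟩
    obtain ⟨h1, h2⟩ := ZFSet.pair_mem_prod.1 (hfun.1 hyz)
    obtain ⟨γ, hγ, e, rfl⟩ := exists_of_mem_och b h1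
    obtain ⟨δ, e', rfl⟩ := h.mem_K.1 h2
    obtain ⟨q, c1, c2⟩ := (hg.and ((Gen.pair_mem_iff e e' a).1 hyz)).exists
    exact (π_och_mem_iff e' c).2 (d γ hγ δ q c1 c2)

theorem isForcing : IsForcing g.M (g.π (Qn U)) (g.π (Rn U)) :=
  ⟨Gen.π_mem_M h.Qn_mem, Gen.π_mem_M h.Rn_mem, ⟨_, h.K_mem_Q⟩,
    fun _ hp => h.mem_R.2 ⟨hp, hp, fun _ h => h⟩,
    fun _ hp _ _ _ hr h1 h2 => h.mem_R.2 ⟨hr, hp, fun _ ht =>
      (h.mem_R.1 h2).2.2 ((h.mem_R.1 h1).2.2 ht)⟩⟩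

theorem closed : ClosedLtOmega (g.π (Qn U)) (g.π (Rn U)) := by
  intro n p hp hd
  cases n with
  | zero => exact ⟨_, h.K_mem_Q, fun i hi => absurd hi (Nat.not_lt_zero _)⟩
  | succ n =>
    refine ⟨p n, hp n (Nat.lt_succ_self n), fun i hi => ?_⟩
    rcases (Nat.lt_succ_iff.1 hi).lt_or_eq with h1 | rfl
    · exact hd i n h1 (Nat.lt_succ_self n)
    · exact h.mem_R.2 ⟨hp i hi, hp i hi, fun _ h => h⟩

theorem cover (hc : CC P) (hU : Meas U) {φ : Name P} (a : φ ∈ g.N)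
    (hf : ∀ α ∈ g.π (kap X), ∃! y, ZFSet.pair α y ∈ g.π φ) {x : ZFSet.{0}}
    (hx : x ∈ g.π (Qn U)) : ∃ k, nm (An (X := X) φ k) ∈ g.N ∧
      x ∩ g.π (nm (An (X := X) φ k)) ∈ g.π (Qn U) := by
  have hxK := (h.Q_sub hx).2
  obtain ⟨ρ, b, rfl, c⟩ := h.exists_Q hx
  have hg := h.ev_good a fun t ht y z => (hf t ht).unique
  rcases h.cov ρ b φ a with ⟨k, h0, h1⟩ | h1
  · exact ⟨k, h0, h.inter_Q b h0 hxK (h1.mono fun q hq =>
      hq.imp fun α r _ h' => ⟨r, le_rfl, h'.1, flat_nm_of h'.2⟩)⟩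
  exfalso
  rcases h.tot φ a with ⟨α, d, e⟩ | h2
  · obtain ⟨y, hy, -⟩ := hf _ (h.mem_K.2 ⟨α, d, rfl⟩)
    have hyM : y ∈ g.M := by
      have h3 := Gen.isCTM.trans _ (Gen.π_mem_M a) hy
      have h4 : ({g.π (och α), y} : ZFSet.{0}) ∈ g.M :=
        Gen.isCTM.trans _ h3 (by simp [ZFSet.pair])
      exact Gen.isCTM.trans _ h4 (by simp)
    obtain ⟨τ, hτ, rfl⟩ := Gen.mem_M.1 hyM
    exact PreGen.ev_not_neg ((Gen.pair_mem_iff d hτ a).1 hy) (e.mono fun q hq => hq τ)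
  · obtain ⟨q, c1, c2, c3, c4⟩ := (c.and (hg.and (h1.and h2))).exists
    have := meas_cont hU _ fun k => null_of_neg_pos hc hU
      (W := fun α r => flat ρ α r ∧ An φ k α r)
      (fun _ _ _ h hr => ⟨Fmem.mono h.1 hr, ValRk.mono h.2 hr⟩) (c3 k)
    obtain ⟨r, hr, α, d1, d2⟩ := c1.2 q le_rfl _ this
    obtain ⟨τ, s, hs, d3⟩ := c4 r hr α
    obtain ⟨t, ht, β, d4⟩ := exists_rk τ s
    have d5 : ValRk φ α t β := ⟨c2.mono (ht.trans (hs.trans hr)), τ, d3.mono ht, d4⟩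
    obtain ⟨k, hk⟩ := be_spec hc d5
    exact mem_iInter.1 d1 k t (ht.trans (hs.trans hr))
      ⟨Fmem.mono d2 (ht.trans hs), show ValRk φ α t (be φ α k) from hk ▸ d5⟩

theorem desc_lt {φ φ' : Name P} (a : φ ∈ g.N) (a' : φ' ∈ g.N) {k k' : RR} {z : ZFSet.{0}}
    (m : nm (An (X := X) φ k) ∈ g.N) (m' : nm (An (X := X) φ' k') ∈ g.N)
    (hz : z ∈ g.π (Qn U)) (h1 : z ⊆ g.π (nm (An (X := X) φ k)))
    (h2 : z ⊆ g.π (nm (An (X := X) φ' k')))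
    (h3 : ∀ α ∈ z, ∀ y y', ZFSet.pair α y ∈ g.π φ' → ZFSet.pair α y' ∈ g.π φ → y ∈ y') :
    {α : X | be φ' α k' < be φ α k} ∈ U := by
  obtain ⟨ζ, b, rfl, c⟩ := h.exists_Q hz
  rcases h.desc ζ b φ' a' φ a with ⟨α, d, τ', e, τ, e', h4⟩ | h4
  · have := h3 _ ((Gen.π_mem_iff d b).2 (h4.mono fun q hq => hq.1)) _ _
      ((Gen.pair_mem_iff d e a').2 (h4.mono fun q hq => hq.2.1))
      ((Gen.pair_mem_iff d e' a).2 (h4.mono fun q hq => hq.2.2.1))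
    exact (PreGen.ev_not_neg ((Gen.π_mem_iff e e').1 this) (h4.mono fun q hq => hq.2.2.2)).elim
  by_contra hcon
  obtain ⟨q, c1, c2, c3, c4⟩ := (c.and (h4.and
    (((Gen.π_sub_iff b m).1 h1).and ((Gen.π_sub_iff b m').1 h2)))).exists
  obtain ⟨r, hr, α, d1, d2⟩ := c1.2 q le_rfl _ (Ultrafilter.compl_mem_iff_notMem.2 hcon)
  obtain ⟨s, hs, -, τ, e1, e2⟩ := flat_nm_elim (W := An φ k)
    (fun _ _ _ h hr => ValRk.mono h hr) (c3 _ r hr d2) r le_rfl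
  obtain ⟨t, ht, -, τ', e3, e4⟩ := flat_nm_elim (W := An φ' k')
    (fun _ _ _ h hr => ValRk.mono h hr) (c4 _ r hr d2) s hs
  exact d1 (e4.lt_of_mem (e2.mono ht) (c2 t (ht.trans (hs.trans hr)) α τ' τ
    (Fmem.mono d2 (ht.trans hs)) e3 (e1.mono ht)))

theorem val_Nn {G : Set ZFSet.{0}} (hK : g.π (kap X) ∈ G) {v : ZFSet.{0} → ZFSet.{0}}
    (hv : IsVal G v) (x : ZFSet.{0}) : ∀ η ∈ g.N, g.π η = x → x ⊆ g.π (kap X) →
    v (g.π (Nn X η)) = x := by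
  induction x using ZFSet.inductionOn with
  | _ x ih =>
    rintro η a rfl hx
    have key : ∀ γ : X, och γ ∈ g.N → g.π (och γ) ∈ g.π η →
        v (g.π (Nn X (och γ))) = g.π (och γ) := fun γ b c =>
      ih _ c _ b rfl (h.K_ord.isTransitive _ (hx c))
    ext y
    rw [hv]
    constructor
    · rintro ⟨σ, p, -, h1, rfl⟩
      obtain ⟨ρ, b, e, c⟩ := Gen.exists_of_mem_π h1
      obtain ⟨γ, d, h2⟩ := h.tN ρ b η a c
      have h3 := Gen.π_eq_of_ev b (Gen.op_mem (h.Nn_mem _ d) h.kap_mem) (h2.mono fun q hq => hq.2)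
      rw [e, Gen.π_op (h.Nn_mem _ d) h.kap_mem] at h3
      have h4 := (Gen.π_mem_iff d a).2 (h2.mono fun q hq => hq.1)
      rw [(ZFSet.pair_inj.1 h3).1, key γ d h4]
      exact h4
    · intro hy
      obtain ⟨γ, d, rfl⟩ := h.mem_K.1 (hx hy)
      exact ⟨_, _, hK, (Gen.pair_mem_iff (h.Nn_mem _ d) h.kap_mem (h.Nn_mem _ a)).2
        (((Gen.π_mem_iff d a).1 hy).mono fun q hq => fmem_Nn hq), (key γ d hy).symm⟩

theorem genMeas (hc : CC P) (hU : Meas U) :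
    GenMeas g.M (g.π (kap X)) (g.π (Qn U)) (g.π (Rn U)) := by
  intro G hG
  obtain ⟨v, hv⟩ := exists_val G
  have hM := Gen.isCTM (g := g)
  have hQ := Gen.π_mem_M h.Qn_mem
  have up : ∀ A ∈ G, ∀ B ∈ g.M, A ⊆ B → B ⊆ g.π (kap X) → B ∈ G := fun A hA B hB h1 h2 =>
    have h3 := h.up_Q (hG.sub A hA) hB h1 h2
    hG.up A hA B h3 (h.mem_R.2 ⟨hG.sub A hA, h3, h1⟩)
  have hK : g.π (kap X) ∈ G := by
    obtain ⟨q, hq, -⟩ := hG.meets _ hQ (fun _ h => h) fun p hp =>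
      ⟨p, hp, h.mem_R.2 ⟨hp, hp, fun _ h => h⟩⟩
    exact up q hq _ (Gen.π_mem_M h.kap_mem) (h.Q_sub (hG.sub q hq)).2 fun _ h => h
  have inter : ∀ A ∈ G, ∀ B ∈ G, A ∩ B ∈ G := fun A hA B hB => by
    obtain ⟨r, hr, h1, h2⟩ := hG.dir A hA B hB
    exact up r hr _ (hM.inter_mem (h.Q_sub (hG.sub A hA)).1 (h.Q_sub (hG.sub B hB)).1)
      (fun t ht => ZFSet.mem_inter.2 ⟨(h.mem_R.1 h1).2.2 ht, (h.mem_R.1 h2).2.2 ht⟩)
      fun t ht => (h.Q_sub (hG.sub A hA)).2 (ZFSet.mem_inter.1 ht).1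
  have dense : ∀ (φ : Fm) (e : List ZFSet.{0}), (∀ z ∈ e, z ∈ g.M) →
      (∀ p ∈ g.π (Qn U), ∃ q ∈ g.π (Qn U), q ⊆ p ∧ Sat g.M φ (q :: e)) →
      ∃ q ∈ G, Sat g.M φ (q :: e) := fun φ e he hd => by
    obtain ⟨D, hD, hD'⟩ := hM.sep φ e he _ hQ
    obtain ⟨q, hq, hq'⟩ := hG.meets D hD (fun t ht => ((hD' t).1 ht).1) fun p hp => by
      obtain ⟨q, a, b, c⟩ := hd p hp
      exact ⟨q, (hD' q).2 ⟨a, c⟩, h.mem_R.2 ⟨a, hp, b⟩⟩
    exact ⟨q, hq, ((hD' q).1 hq').2⟩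
  have hval : ∀ y, y ∈ v (g.π (Gam U)) ↔ y ∈ G := by
    intro y
    rw [hv]
    constructor
    · rintro ⟨σ, p, hp, h1, rfl⟩
      obtain ⟨W, a, b, -⟩ := Gen.exists_child h.Gam_mem h1
      have c := Gen.of_op_mem (σ := Nn X (nm W)) (τ := nm W) a
      obtain ⟨rfl, rfl⟩ := ZFSet.pair_inj.1 ((Gen.π_op c.1 c.2).symm.trans b)
      rw [h.val_Nn hK hv _ _ c.2 rfl (h.Q_sub (hG.sub _ hp)).2]
      exact hp
    · intro hy
      obtain ⟨ρ, a, rfl, b⟩ := h.exists_Q (hG.sub y hy)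
      exact ⟨_, _, hy, (Gen.pair_mem_iff (h.Nn_mem _ a) a h.Gam_mem).2
        (b.mono fun q hq => fmem_Gam hq),
        (h.val_Nn hK hv _ _ a rfl (h.Q_sub (hG.sub _ hy)).2).symm⟩
  refine ⟨v, hv, _, Gen.π_mem_M h.Gam_mem, ⟨?_, ?_, ?_, ?_, ?_, ?_, ?_, ?_⟩, ?_⟩
  · intro A hA
    exact h.Q_sub (hG.sub A ((hval A).1 hA))
  · exact (hval _).2 hK
  · exact fun h' => h.nonempty_Q (hG.sub _ ((hval _).1 h')) rfl
  · intro A hA B hB h1 h2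
    exact (hval _).2 (up A ((hval A).1 hA) B hB h1 h2)
  · intro A hA B hB
    exact (hval _).2 (inter A ((hval A).1 hA) B ((hval B).1 hB))
  · intro A hA hAK
    obtain ⟨q, hq, h1⟩ := dense (Fm.or (.all (.imp (.mem 0 1) (.mem 0 2)))
      (.all (.imp (.mem 0 1) (Fm.neg (.mem 0 2))))) [A] (by simpa using hA) fun p hp => by
        rcases h.split_Q hc hU hp hA with h1 | h1
        · exact ⟨_, h1, fun t ht => (ZFSet.mem_inter.1 ht).1,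
            sat_or.2 (Or.inl fun t _ ht => (ZFSet.mem_inter.1 ht).2)⟩
        · exact ⟨_, h1, fun t ht => (ZFSet.mem_sdiff.1 ht).1,
            sat_or.2 (Or.inr fun t _ ht => (ZFSet.mem_sdiff.1 ht).2)⟩
    obtain ⟨hqM, hqK⟩ := h.Q_sub (hG.sub q hq)
    rw [hval, hval]
    rcases sat_or.1 h1 with h2 | h2
    · exact Or.inl (up q hq A hA (fun t ht => h2 t (hM.trans q hqM ht) ht) hAK)
    · exact Or.inr (up q hq _ (hM.sdiff_mem (Gen.π_mem_M h.kap_mem) hA)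
        (fun t ht => ZFSet.mem_sdiff.2 ⟨hqK ht, h2 t (hM.trans q hqM ht) ht⟩)
        fun t ht => (ZFSet.mem_sdiff.1 ht).1)
  · exact fun α hα h' => h.bdd_not_Q hU hα (hG.sub _ ((hval _).1 h'))
  · intro f hf A hA hreg
    rw [hval] at hA
    obtain ⟨hAM, hAK⟩ := h.Q_sub (hG.sub A hA)
    obtain ⟨q, hq, h1⟩ := dense (Fm.or (.all (.imp (.mem 0 1) (Fm.neg (.mem 0 2))))
      (Fm.ex (.all (.imp (.mem 0 2) (Fm.pairIn 0 1 4))))) [A, f] (by simp [hAM, hf]) fun p hp => by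
        rcases h.split_Q hc hU hp hAM with h1 | h1
        · obtain ⟨β, a, y, b, c, d⟩ := h.normal_Q hc hU h1 hf fun α hα =>
            hreg α (ZFSet.mem_inter.1 hα).2
          exact ⟨y, b, fun t ht => (ZFSet.mem_inter.1 (c ht)).1, sat_or.2 (Or.inr (sat_ex.2
            ⟨β, a, fun t _ ht => (sat_pairIn (a := 0) (b := 1) (f := 4) (e := [t, β, y, A, f]) hM.trans hf).2
              (d t ht)⟩))⟩
        · exact ⟨_, h1, fun t ht => (ZFSet.mem_sdiff.1 ht).1,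
            sat_or.2 (Or.inl fun t _ ht => (ZFSet.mem_sdiff.1 ht).2)⟩
    obtain ⟨hqM, hqK⟩ := h.Q_sub (hG.sub q hq)
    rcases sat_or.1 h1 with h2 | h2
    · refine absurd ((ZFSet.eq_empty _).2 fun t ht => ?_) (h.nonempty_Q (hG.sub _ (inter q hq A hA)))
      obtain ⟨a, b⟩ := ZFSet.mem_inter.1 ht
      exact h2 t (hM.trans q hqM a) a b
    · obtain ⟨β, -, h3⟩ := sat_ex.1 h2
      exact ⟨β, q, (hval q).2 hq, fun t ht =>
        (sat_pairIn (a := 0) (b := 1) (f := 4) (e := [t, β, q, A, f]) hM.trans hf).1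
          (h3 t (hM.trans q hqM ht) ht)⟩
  · rintro ⟨f, hf, hd⟩
    choose φ hφ hφ' using fun n => Gen.mem_M.1 (hf n).1
    have hk : ∀ n, ∃ k, nm (An (X := X) (φ n) k) ∈ g.N ∧
        ∃ y ∈ G, y ⊆ g.π (nm (An (X := X) (φ n) k)) := fun n => by
      have a := h.An_mem _ (hφ n)
      obtain ⟨q, hq, h1⟩ := dense (Fm.ex (Fm.and (.mem 0 2) (.all (.imp (.mem 0 2) (.mem 0 1)))))
        [g.π (fam fun k => nm (An (X := X) (φ n) k))] (by simpa using Gen.π_mem_M a)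
        fun p hp => by
          obtain ⟨k, h0, hk⟩ := h.cover hc hU (hφ n) (by rw [hφ']; exact (hf n).2) hp
          exact ⟨_, hk, fun t ht => (ZFSet.mem_inter.1 ht).1, sat_ex.2
            ⟨_, Gen.π_mem_M h0, sat_and.2
              ⟨(Gen.π_mem_iff h0 a).2 (Eventually.of_forall fun q =>
                  fmem_fam_self (fun k => nm (An (X := X) (φ n) k)) k q),
                fun t _ ht => (ZFSet.mem_inter.1 ht).2⟩⟩⟩
      obtain ⟨B, -, h2⟩ := sat_ex.1 h1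
      obtain ⟨h3, h4⟩ := sat_and.1 h2
      obtain ⟨k, h0, rfl, -⟩ := Gen.exists_child a h3
      exact ⟨k, h0, q, hq, fun t ht => h4 t (hM.trans q (h.Q_sub (hG.sub q hq)).1 ht) ht⟩
    choose k h0 y hy hy' using hk
    refine hU.no_desc (fun n α => be (φ n) α (k n)) fun n => ?_
    obtain ⟨A, hA, hA'⟩ := hd n
    have hz := inter _ (inter A ((hval A).1 hA) _ (hy n)) _ (hy (n + 1))
    refine h.desc_lt (hφ n) (hφ (n + 1)) (h0 n) (h0 (n + 1)) (hG.sub _ hz)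
      (fun t ht => hy' n (ZFSet.mem_inter.1 (ZFSet.mem_inter.1 ht).1).2)
      (fun t ht => hy' (n + 1) (ZFSet.mem_inter.1 ht).2) fun α hα => ?_
    rw [hφ', hφ']
    exact hA' α (ZFSet.mem_inter.1 (ZFSet.mem_inter.1 hα).1).1

end Rich

end Pool.Agent.Lib.MP_446da5_lc
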