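import Mathlib
import Pool.Agent.Lib.MP_446da5_lc.GenMeas

/-!
Names for plays of the cut and choose game against a name for a strategy.
-/

set_option autoImplicit false

namespace Pool.Agent.Lib.MP_446da5_lc

open Set Filter Pool.Agent.Lib.Common.Forcing

variable {P : Type} [Preorder P] {X : Type} [LinearOrder X] [WellFoundedLT X]

/-- Monotone `P`-valued subsets of `X`. -/
def Mon (W : X → P → Prop) : Prop := ∀ α s r, W α s → r ≤ s → W α r

theorem flat_nm_iff {W : X → P → Prop} (hm : Mon W) {α : X} {q : P} :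
    flat (nm W) α q ↔ Dn (W α) q :=
  ⟨flat_nm_elim hm, fun h => Fmem.reg fun r hr =>
    let ⟨s, hs, h'⟩ := h r hr
    ⟨s, hs, flat_nm_of h'⟩⟩

theorem feq_nm_congr {W W' : X → P → Prop} (hm : Mon W) (hm' : Mon W') {q : P}
    (h : ∀ α, ∀ r ≤ q, W α r ↔ W' α r) : Feq (nm W) (nm W') q :=
  Feq.ext (fsub_of_act fun i r hr ⟨s, hs, h1⟩ => flat_nm_of ((h i r hr).1 (hm i s r h1 hs)))
    (fsub_of_act fun i r hr ⟨s, hs, h1⟩ => flat_nm_of ((h i r hr).2 (hm' i s r h1 hs)))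

/-- The left piece. -/
def lft (d a : X → P → Prop) : X → P → Prop := fun α q => d α q ∧ a α q

/-- The right piece. -/
def rgt (d a : X → P → Prop) : X → P → Prop := fun α q => d α q ∧ Neg (a α) q

/-- The name of one entry of the sequence of cuts. -/
noncomputable def ent (i : ℕ) (d a : X → P → Prop) : Name P :=
  op (oc (i : Ordinal.{0})) (op (nm (lft d a)) (nm (rgt d a)))

/-- The current sets when Cut proposes the sets `a n` and Choose follows `σ`. -/
noncomputable def DD (σ : Name P) (a : ℕ → X → P → Prop) : ℕ → X → P → Prop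
  | 0 => fun _ _ => True
  | n + 1 => fun α q => DD σ a n α q ∧
      ((Fmem (op (fam fun i : Fin (n + 1) => ent i (DD σ a i) (a i)) (nm (lft (DD σ a n) (a n))))
        σ q ∧ a n α q) ∨
      (Neg (Fmem (op (fam fun i : Fin (n + 1) => ent i (DD σ a i) (a i))
        (nm (lft (DD σ a n) (a n)))) σ) q ∧ Neg (a n α) q))
termination_by n => n
decreasing_by all_goals first | exact i.2 | exact Nat.lt_succ_self _

/-- The name of the position. -/
noncomputable def finN (σ : Name P) (a : ℕ → X → P → Prop) (n : ℕ) : Name P :=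
  fam fun i : Fin (n + 1) => ent i (DD σ a i) (a i)

/-- The strategy answers with the left piece. -/
def ch (σ : Name P) (a : ℕ → X → P → Prop) (n : ℕ) : P → Prop :=
  Fmem (op (finN σ a n) (nm (lft (DD σ a n) (a n)))) σ

theorem DD_zero (σ : Name P) (a : ℕ → X → P → Prop) : DD σ a 0 = fun _ _ => True := by
  rw [DD]

theorem DD_succ {σ : Name P} {a : ℕ → X → P → Prop} {n : ℕ} {α : X} {q : P} :
    DD σ a (n + 1) α q ↔ DD σ a n α q ∧
      ((ch σ a n q ∧ a n α q) ∨ (Neg (ch σ a n) q ∧ Neg (a n α) q)) := by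
  rw [DD]; rfl

/-- The final intersection. -/
def Fin' (σ : Name P) (a : ℕ → X → P → Prop) : X → P → Prop :=
  fun α q => ∀ n, Dn (DD σ a n α) q

theorem mon_Fin (σ : Name P) (a : ℕ → X → P → Prop) : Mon (Fin' σ a) :=
  fun _ _ _ h hr n => (h n).mono hr

theorem mon_DD (σ : Name P) {a : ℕ → X → P → Prop} (ha : ∀ i, Mon (a i)) (n : ℕ) :
    Mon (DD σ a n) := by
  induction n with
  | zero => rw [DD_zero]; exact fun _ _ _ _ _ => trivial
  | succ n ih =>
    intro α s r h hr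
    rw [DD_succ] at h ⊢
    exact ⟨ih α s r h.1 hr, h.2.imp (fun h => ⟨Fmem.mono h.1 hr, ha n α s r h.2 hr⟩)
      fun h => ⟨h.1.mono hr, h.2.mono hr⟩⟩

omit [LinearOrder X] [WellFoundedLT X] in
theorem mon_lft {d a : X → P → Prop} (hd : Mon d) (ha : Mon a) : Mon (lft d a) :=
  fun α s r h hr => ⟨hd α s r h.1 hr, ha α s r h.2 hr⟩

omit [LinearOrder X] [WellFoundedLT X] in
theorem mon_rgt {d a : X → P → Prop} (hd : Mon d) : Mon (rgt d a) :=
  fun α s r h hr => ⟨hd α s r h.1 hr, h.2.mono hr⟩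

theorem neg_congr {u v : P → Prop} {q : P} (h : ∀ r ≤ q, u r ↔ v r) :
    ∀ r ≤ q, Neg u r ↔ Neg v r := fun r hr =>
  forall₂_congr fun s hs => not_congr (h s (hs.trans hr))

theorem DD_congr (σ : Name P) {a a' : ℕ → X → P → Prop} (ha : ∀ i, Mon (a i))
    (ha' : ∀ i, Mon (a' i)) {q : P} (m : ℕ) (h : ∀ i < m, ∀ α, ∀ r ≤ q, a i α r ↔ a' i α r) :
    ∀ α, ∀ r ≤ q, DD σ a m α r ↔ DD σ a' m α r := by
  induction m using Nat.strong_induction_on with
  | _ m ih =>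
    cases m with
    | zero => intro α r _; rw [DD_zero, DD_zero]
    | succ n =>
      have hd : ∀ i < n + 1, ∀ α, ∀ r ≤ q, DD σ a i α r ↔ DD σ a' i α r :=
        fun i hi => ih i hi fun j hj => h j (hj.trans hi)
      have hl : ∀ i < n + 1, Feq (nm (lft (DD σ a i) (a i))) (nm (lft (DD σ a' i) (a' i))) q :=
        fun i hi => feq_nm_congr (mon_lft (mon_DD σ ha i) (ha i))
          (mon_lft (mon_DD σ ha' i) (ha' i)) fun α r hr =>
            and_congr (hd i hi α r hr) (h i hi α r hr)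
      have hr : ∀ i < n + 1, Feq (nm (rgt (DD σ a i) (a i))) (nm (rgt (DD σ a' i) (a' i))) q :=
        fun i hi => feq_nm_congr (mon_rgt (mon_DD σ ha i)) (mon_rgt (mon_DD σ ha' i))
          fun α r hr => and_congr (hd i hi α r hr) (neg_congr (h i hi α) r hr)
      have he : Feq (op (finN σ a n) (nm (lft (DD σ a n) (a n))))
          (op (finN σ a' n) (nm (lft (DD σ a' n) (a' n)))) q :=
        feq_op (feq_fam fun i => feq_op (Feq.refl _ _) (feq_op (hl i i.2) (hr i i.2)))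
          (hl n (Nat.lt_succ_self n))
      have hc : ∀ r ≤ q, ch σ a n r ↔ ch σ a' n r := fun r hr =>
        ⟨fun h => h.congr_left (he.mono hr), fun h => h.congr_left (he.mono hr).symm⟩
      intro α r hr
      rw [DD_succ, DD_succ, hd n (Nat.lt_succ_self n) α r hr, hc r hr, neg_congr hc r hr,
        h n (Nat.lt_succ_self n) α r hr, neg_congr (h n (Nat.lt_succ_self n) α) r hr]

/-- The names needed to run the play in the model. -/
def pack (σ : Name P) (a : ℕ → X → P → Prop) : Set (Name P) :=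
  {fam fun i : ℕ => ent i (DD σ a i) (a i), fam fun i : ℕ => nm (DD σ a i), fam (finN σ a)}

variable {U : Ultrafilter X} {g : Gen P}

theorem mem_π_nm {W : X → P → Prop} (hm : Mon W) (hW : nm W ∈ g.N) {x : ZFSet.{0}} :
    x ∈ g.π (nm W) ↔ ∃ α : X, och α ∈ g.N ∧ g.π (och α) = x ∧ ∀ᶠ q in g.fil, Dn (W α) q := by
  constructor
  · intro hx
    obtain ⟨i, h1, h2, h3⟩ := Gen.exists_child hW hx
    exact ⟨i, h1, h2, h3.mono fun q ⟨s, hs, h⟩ r hr => ⟨r, le_rfl, hm i s r h (hr.trans hs)⟩⟩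
  · rintro ⟨α, h1, rfl, h2⟩
    exact (Gen.π_mem_iff h1 hW).2 (h2.mono fun q hq => (flat_nm_iff hm).2 hq)

theorem π_och_inj {α β : X} (ha : och α ∈ g.N) (hb : och β ∈ g.N)
    (h : g.π (och α) = g.π (och β)) : α = β :=
  let ⟨_, hq⟩ := ((Gen.π_eq_iff ha hb).1 h).exists
  feq_och_iff.1 hq

theorem Rich.run (h : Rich U g) {σ : Name P} (hσ : σ ∈ g.N) {a : ℕ → X → P → Prop}
    (ha : ∀ i, Mon (a i)) (hp : pack σ a ⊆ g.N)
    (hw : ∀ A B C : ℕ → ZFSet.{0}, (∀ i, A i ∈ g.M ∧ B i ∈ g.M) →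
      (∀ n, (∀ i < n, Legal (g.π (kap X)) A B C i ∧ Follows (g.π σ) A B C i) →
        Legal (g.π (kap X)) A B C n →
        (ZFSet.pair (finCuts A B n) (A n) ∈ g.π σ ∨ ZFSet.pair (finCuts A B n) (B n) ∈ g.π σ) ∧
        (Follows (g.π σ) A B C n → ∀ x, C n ≠ {x})) ∧
      (allCuts A B ∈ g.M → (∀ n, Legal (g.π (kap X)) A B C n ∧ Follows (g.π σ) A B C n) →
        ∃ x, ∀ n, x ∈ C n)) :
    (∀ n (α : X), och α ∈ g.N →
      ¬ ∀ᶠ q in g.fil, DD σ a (n + 1) α q ∧ ∀ β ≠ α, Neg (DD σ a (n + 1) β) q) ∧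
    ¬ ∀ᶠ q in g.fil, ∀ α, Neg (Fin' σ a α) q := by
  have p1 : (fam fun i : ℕ => ent i (DD σ a i) (a i)) ∈ g.N := hp (by simp [pack])
  have p2 : (fam fun i : ℕ => nm (DD σ a i)) ∈ g.N := hp (by simp [pack])
  have p3 : fam (finN σ a) ∈ g.N := hp (by simp [pack])
  have mE : ∀ i : ℕ, ent i (DD σ a i) (a i) ∈ g.N := Gen.fam_kids p1
  have mD : ∀ i : ℕ, nm (DD σ a i) ∈ g.N := Gen.fam_kids p2
  have mF : ∀ i : ℕ, finN σ a i ∈ g.N := Gen.fam_kids p3
  have mA : ∀ i : ℕ, nm (lft (DD σ a i) (a i)) ∈ g.N := fun i =>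
    (Gen.of_op_mem (Gen.of_op_mem (mE i)).2).1
  have mB : ∀ i : ℕ, nm (rgt (DD σ a i) (a i)) ∈ g.N := fun i =>
    (Gen.of_op_mem (Gen.of_op_mem (mE i)).2).2
  have md := mon_DD σ ha
  have ml := fun i => mon_lft (md i) (ha i)
  have mr := fun i => mon_rgt (a := a i) (md i)
  set A : ℕ → ZFSet.{0} := fun i => g.π (nm (lft (DD σ a i) (a i))) with hA
  set B : ℕ → ZFSet.{0} := fun i => g.π (nm (rgt (DD σ a i) (a i))) with hB
  set C : ℕ → ZFSet.{0} := fun i => g.π (nm (DD σ a (i + 1))) with hC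
  have eE : ∀ i : ℕ, g.π (ent i (DD σ a i) (a i)) =
      ZFSet.pair (i : Ordinal.{0}).toZFSet (ZFSet.pair (A i) (B i)) := fun i => by
    rw [ent, Gen.π_op (Gen.nat_mem i) (Gen.op_mem (mA i) (mB i)), Gen.π_op (mA i) (mB i),
      Gen.π_nat]
  have eF : ∀ n, g.π (finN σ a n) = finCuts A B n := fun n => by
    ext x
    rw [finN, Gen.mem_π_fam (mF n) fun i => mE i, finCuts, ZFSet.mem_range]
    simp only [eE]
  have eS : g.π (fam fun i : ℕ => ent i (DD σ a i) (a i)) = allCuts A B := by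
    ext x
    rw [Gen.mem_π_fam p1 mE, allCuts, ZFSet.mem_range]
    simp only [eE]
  have eC : ∀ n, cur (g.π (kap X)) C n = g.π (nm (DD σ a n)) := fun n => by
    cases n with
    | zero =>
      ext x
      rw [cur, h.mem_K, mem_π_nm (md 0) (mD 0), DD_zero]
      exact ⟨fun ⟨α, b, c⟩ => ⟨α, b, c, Eventually.of_forall fun q r _ => ⟨r, le_rfl, trivial⟩⟩,
        fun ⟨α, b, c, _⟩ => ⟨α, b, c⟩⟩
    | succ n => rfl
  have leg : ∀ n, Legal (g.π (kap X)) A B C n := fun n => by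
    refine ⟨(ZFSet.eq_empty _).2 fun x hx => ?_, ?_⟩
    · obtain ⟨h1, h2⟩ := ZFSet.mem_inter.1 hx
      obtain ⟨α, b, rfl, c⟩ := (mem_π_nm (ml n) (mA n)).1 h1
      obtain ⟨β, b', e, c'⟩ := (mem_π_nm (mr n) (mB n)).1 h2
      obtain rfl := π_och_inj b' b e
      obtain ⟨q, d, d'⟩ := (c.and c').exists
      obtain ⟨r, hr, d1⟩ := d' q le_rfl
      obtain ⟨s, hs, d2⟩ := d r hr
      exact d1.2 s hs d2.2
    · rw [eC]
      ext x
      rw [ZFSet.mem_union, mem_π_nm (md n) (mD n)]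
      constructor
      · rintro (h1 | h1)
        · obtain ⟨α, b, c, d⟩ := (mem_π_nm (ml n) (mA n)).1 h1
          exact ⟨α, b, c, d.mono fun q hq r hr => let ⟨s, hs, e⟩ := hq r hr; ⟨s, hs, e.1⟩⟩
        · obtain ⟨α, b, c, d⟩ := (mem_π_nm (mr n) (mB n)).1 h1
          exact ⟨α, b, c, d.mono fun q hq r hr => let ⟨s, hs, e⟩ := hq r hr; ⟨s, hs, e.1⟩⟩
      · rintro ⟨α, b, rfl, d⟩
        rcases Gen.dec_mem b (mA n) with h1 | h1
        · exact Or.inl ((Gen.π_mem_iff b (mA n)).2 h1)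
        · refine Or.inr ((mem_π_nm (mr n) (mB n)).2 ⟨α, b, rfl, ?_⟩)
          filter_upwards [d, h1] with q c e r hr
          obtain ⟨s, hs, c'⟩ := c r hr
          exact ⟨s, hs, c', fun t ht h2 => e t (ht.trans (hs.trans hr))
            (flat_nm_of (W := lft (DD σ a n) (a n)) ⟨md n α s t c' ht, h2⟩)⟩
  obtain ⟨w1, w2⟩ := hw A B C fun i => ⟨Gen.π_mem_M (mA i), Gen.π_mem_M (mB i)⟩
  have fol : ∀ n, Follows (g.π σ) A B C n := fun n => by
    induction n using Nat.strong_induction_on with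
    | _ n ih =>
      have hiff : ZFSet.pair (finCuts A B n) (A n) ∈ g.π σ ↔ ∀ᶠ q in g.fil, ch σ a n q := by
        rw [← eF]; exact Gen.pair_mem_iff (mF n) (mA n) hσ
      rcases Gen.dec_mem (Gen.op_mem (mF n) (mA n)) hσ with h1 | h1
      · have e : C n = A n := Gen.π_eq_of_ev (mD (n + 1)) (mA n) (h1.mono fun q hq =>
          feq_nm_congr (md (n + 1)) (ml n) fun α r hr => by
            rw [DD_succ]
            exact ⟨fun h2 => ⟨h2.1, h2.2.elim (·.2) fun h3 => absurd (hq.mono hr) (h3.1 r le_rfl)⟩,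
              fun h2 => ⟨h2.1, Or.inl ⟨hq.mono hr, h2.2⟩⟩⟩)
        exact ⟨Or.inl e, e ▸ hiff.2 h1⟩
      · have e : C n = B n := Gen.π_eq_of_ev (mD (n + 1)) (mB n) (h1.mono fun q hq =>
          feq_nm_congr (md (n + 1)) (mr n) fun α r hr => by
            rw [DD_succ]
            exact ⟨fun h2 => ⟨h2.1, h2.2.elim (fun h3 => absurd h3.1 (hq r hr)) (·.2)⟩,
              fun h2 => ⟨h2.1, Or.inr ⟨hq.mono hr, h2.2⟩⟩⟩)
        refine ⟨Or.inr e, e ▸ ?_⟩
        exact (w1 n (fun i hi => ⟨leg i, ih i hi⟩) (leg n)).1.resolve_left fun h2 =>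
          PreGen.ev_not_neg (hiff.1 h2) h1
  refine ⟨fun n α b hev => ?_, fun hev => ?_⟩
  · refine (w1 n (fun i _ => ⟨leg i, fol i⟩) (leg n)).2 (fol n) (g.π (och α)) ?_
    ext x
    rw [ZFSet.mem_singleton]
    refine (mem_π_nm (md (n + 1)) (mD (n + 1))).trans ⟨?_, ?_⟩
    · rintro ⟨β, -, rfl, c⟩
      by_contra hne
      obtain ⟨q, d, e⟩ := (c.and hev).exists
      obtain ⟨r, hr, d'⟩ := d q le_rfl
      exact e.2 β (fun h' => hne (h' ▸ rfl)) r hr d'
    · rintro rfl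
      exact ⟨α, b, rfl, hev.mono fun q hq r hr => ⟨r, le_rfl, md _ α q r hq.1 hr⟩⟩
  · obtain ⟨x, hx⟩ := w2 (eS ▸ Gen.π_mem_M p1) fun n => ⟨leg n, fol n⟩
    obtain ⟨α, b, rfl, -⟩ := (mem_π_nm (md 1) (mD 1)).1 (hx 0)
    have h1 : Sat g.M (.all (.imp (.mem 0 2) (.mem 1 0)))
        ([och α, fam fun i : ℕ => nm (DD σ a i)].map g.π) := fun y _ hy => by
      obtain ⟨i, rfl⟩ := (Gen.mem_π_fam p2 mD).1 hy
      show g.π (och α) ∈ g.π (nm (DD σ a i))
      cases i with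
      | zero => rw [← eC]; exact h.mem_K.2 ⟨α, b, rfl⟩
      | succ i => exact hx i
    refine PreGen.ev_not_neg (u := Fin' σ a α) ?_ (hev.mono fun q hq => hq α)
    filter_upwards [(Gen.truth _ (Gen.l2 b p2)).1 h1] with q hq n
    exact (flat_nm_iff (md n)).1
      (hq (nm (DD σ a n)) q le_rfl (fmem_fam_self (fun i : ℕ => nm (DD σ a i)) n q))

end Pool.Agent.Lib.MP_446da5_lc
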