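import Mathlib

set_option autoImplicit false

namespace Pool.Agent.Lib.MP_446da5_lc

open Set

/-- The current set `D_α`: the intersection of the sets chosen in the rounds before `α`. -/
def current {X Γ : Type} [LinearOrder Γ] (C : Γ → Set X) (α : Γ) : Set X :=
  ⋂ β ∈ Iio α, C β

/-- Choose has a winning strategy in the weak cut-and-choose game on the set `X` whose rounds are
indexed by the well-ordered set `Γ`.  A strategy `σ` sees, at round `α`, the cuts `(A β, B β)` of
all rounds `β ≤ α` and answers `true` (take `A α`) or `false` (take `B α`).  It is winning if in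
every run in which Cut splits the current set into two disjoint pieces and Choose follows `σ`, no
chosen set is a singleton and the intersection of all chosen sets is nonempty. -/
def ChooseWinsOn (X Γ : Type) [LinearOrder Γ] : Prop :=
  ∃ σ : (α : Γ) → (Iic α → Set X × Set X) → Bool,
    ∀ A B C : Γ → Set X,
      (∀ α, Disjoint (A α) (B α) ∧ A α ∪ B α = current C α) →
      (∀ α, C α = if σ α (fun β => (A β, B β)) = true then A α else B α) →
      (∀ α x, C α ≠ {x}) ∧ (⋂ α, C α).Nonempty

/-- Choose wins the game `U(κ, ≤γ)`: the underlying set is the ordinal `κ` and the rounds are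
indexed by the ordinals below `γ`. -/
def ChooseWins (κ γ : Cardinal.{0}) : Prop :=
  ChooseWinsOn κ.ord.ToType γ.ord.ToType

end Pool.Agent.Lib.MP_446da5_lc
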