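import Mathlib
import Pool.Agent.Lib.MP_446da5_lc.Defs

set_option autoImplicit false

namespace Pool.Agent.Lib.MP_446da5_lc

open Set Cardinal

variable {X Γ : Type} [LinearOrder Γ]

/-- A reduced winning strategy: Cut proposes arbitrary sets, Choose picks the set or its
complement. -/
structure Red (τ : (Γ → Set X) → Γ → Set X) : Prop where
  side : ∀ a α, τ a α = a α ∨ τ a α = (a α)ᶜ
  loc : ∀ a a' α, (∀ β ≤ α, a β = a' β) → τ a α = τ a' α
  nosing : ∀ a α x, (⋂ β ∈ Iic α, τ a β) ≠ {x}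
  ne : ∀ a, (⋂ α, τ a α).Nonempty

theorem exists_red [WellFoundedLT Γ] (h : ChooseWinsOn X Γ) :
    ∃ τ : (Γ → Set X) → Γ → Set X, Red τ := by
  classical
  obtain ⟨σ, hσ⟩ := h
  let F : (Γ → Set X) → (α : Γ) → ((β : Γ) → β < α → Set X) → Set X := fun a α ih =>
    if σ α (fun β => ((⋂ δ : Iio (β : Γ), ih δ (lt_of_lt_of_le δ.2 β.2)) ∩ a β,
        (⋂ δ : Iio (β : Γ), ih δ (lt_of_lt_of_le δ.2 β.2)) ∩ (a β)ᶜ)) = true
      then a α else (a α)ᶜ
  let τ : (Γ → Set X) → Γ → Set X := fun a => (wellFounded_lt (α := Γ)).fix (F a)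
  have hτ : ∀ a α, τ a α =
      if σ α (fun β => ((⋂ δ : Iio (β : Γ), τ a δ) ∩ a β,
        (⋂ δ : Iio (β : Γ), τ a δ) ∩ (a β)ᶜ)) = true then a α else (a α)ᶜ := fun a α => by
    simp only [τ]
    rw [WellFounded.fix_eq]
  have hwin : ∀ a, (∀ α x, (⋂ δ : Iio α, τ a δ) ∩ τ a α ≠ {x}) ∧
      (⋂ α, ((⋂ δ : Iio α, τ a δ) ∩ τ a α)).Nonempty := by
    intro a
    refine hσ (fun β => (⋂ δ : Iio β, τ a δ) ∩ a β) (fun β => (⋂ δ : Iio β, τ a δ) ∩ (a β)ᶜ)
      (fun β => (⋂ δ : Iio β, τ a δ) ∩ τ a β) (fun α => ⟨?_, ?_⟩) (fun α => ?_)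
    · exact Set.disjoint_left.2 fun x h1 h2 => h2.2 h1.2
    · rw [← inter_union_distrib_left, union_compl_self, inter_univ]
      ext x
      simp only [current, mem_iInter, mem_inter_iff, Subtype.forall, mem_Iio]
      exact ⟨fun h β hβ => ⟨fun δ hδ => h δ (hδ.trans hβ), h β hβ⟩, fun h β hβ => (h β hβ).2⟩
    · rw [hτ a α]
      split_ifs <;> rfl
  refine ⟨τ, fun a α => ?_, fun a a' α => ?_, fun a α x => ?_, fun a => ?_⟩
  · rw [hτ]
    split_ifs
    · exact Or.inl rfl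
    · exact Or.inr rfl
  · induction α using WellFoundedLT.induction with
    | ind α ih =>
      intro h
      rw [hτ a α, hτ a' α, h α le_rfl]
      have : (fun β : Iic α => ((⋂ δ : Iio (β : Γ), τ a δ) ∩ a β,
          (⋂ δ : Iio (β : Γ), τ a δ) ∩ (a β)ᶜ)) =
          (fun β : Iic α => ((⋂ δ : Iio (β : Γ), τ a' δ) ∩ a' β,
          (⋂ δ : Iio (β : Γ), τ a' δ) ∩ (a' β)ᶜ)) := by
        funext β
        have e : (⋂ δ : Iio (β : Γ), τ a δ) = ⋂ δ : Iio (β : Γ), τ a' δ :=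
          iInter_congr fun δ => ih δ (lt_of_lt_of_le δ.2 β.2)
            fun ε hε => h ε (hε.trans (lt_of_lt_of_le δ.2 β.2).le)
        rw [e, h β β.2]
      rw [this]
  · intro h
    apply (hwin a).1 α x
    rw [← h]
    ext y
    simp only [mem_iInter, mem_inter_iff, Subtype.forall, mem_Iio, mem_Iic]
    exact ⟨fun h β hβ => hβ.lt_or_eq.elim (h.1 β) (fun e => e ▸ h.2),
      fun h => ⟨fun β hβ => h β hβ.le, h α le_rfl⟩⟩
  · obtain ⟨x, hx⟩ := (hwin a).2
    exact ⟨x, mem_iInter.2 fun α => (mem_iInter.1 hx α).2⟩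

/-- Splitting lemma: every position has two extensions with disjoint answers in some round. -/
theorem Red.split {τ : (Γ → Set X) → Γ → Set X} (h : Red τ) (e : X → Γ → Bool)
    (he : Function.Injective e) (hsurj : ∀ α : Γ, ∃ π : Γ → Γ, ∀ ξ, ∃ β, α < β ∧ π β = ξ)
    (α : Γ) (a : Γ → Set X) :
    ∃ (a₁ a₂ : Γ → Set X) (β : Γ), (∀ δ < α, a₁ δ = a δ) ∧ (∀ δ < α, a₂ δ = a δ) ∧ α < β ∧
      Disjoint (τ a₁ β) (τ a₂ β) := by
  classical
  obtain ⟨π, hπ⟩ := hsurj α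
  let bit : Γ → Set X := fun β => {x | e x (π β) = true}
  let a₁ : Γ → Set X := fun β => if β < α then a β else bit β
  obtain ⟨x, hx⟩ := h.ne a₁
  let a₂ : Γ → Set X := fun β => if β < α then a β else if β = α then {x} else bit β
  obtain ⟨y, hy⟩ := h.ne a₂
  rw [mem_iInter] at hx hy
  by_contra hcon
  push Not at hcon
  have h1 : ∀ δ < α, a₁ δ = a δ := fun δ hδ => if_pos hδ
  have h2 : ∀ δ < α, a₂ δ = a δ := fun δ hδ => if_pos hδ
  have hα : a₂ α = {x} := by simp [a₂]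
  have hyx : y ≠ x := by
    rcases h.side a₂ α with e1 | e1
    · exfalso
      apply h.nosing a₂ α y
      apply Subset.antisymm
      · intro z hz
        have hz' : z ∈ τ a₂ α := mem_iInter₂.1 hz α le_rfl
        have hy' := hy α
        rw [e1, hα] at hz' hy'
        rw [mem_singleton_iff] at hz' hy' ⊢
        rw [hz', hy']
      · rintro z rfl
        exact mem_iInter₂.2 fun β _ => hy β
    · have := hy α
      rw [e1, hα] at this
      exact this
  apply hyx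
  apply he
  funext ξ
  obtain ⟨β, hβ, rfl⟩ := hπ ξ
  have e1 : a₁ β = bit β := if_neg (not_lt.2 hβ.le)
  have e2 : a₂ β = bit β := by
    simp only [a₂, if_neg (not_lt.2 hβ.le), if_neg hβ.ne']
  have hnd := hcon a₁ a₂ β h1 h2 hβ
  have hx' := hx β
  have hy' := hy β
  rcases h.side a₁ β with s1 | s1 <;> rcases h.side a₂ β with s2 | s2
  · rw [s1, e1] at hx'
    rw [s2, e2] at hy'
    exact (show e y (π β) = true from hy').trans (show e x (π β) = true from hx').symm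
  · rw [s1, s2, e1, e2] at hnd
    exact absurd disjoint_compl_right hnd
  · rw [s1, s2, e1, e2] at hnd
    exact absurd disjoint_compl_left hnd
  · rw [s1, e1] at hx'
    rw [s2, e2] at hy'
    have hx'' : ¬ e x (π β) = true := hx'
    have hy'' : ¬ e y (π β) = true := hy'
    simp only [Bool.not_eq_true] at hx'' hy''
    rw [hx'', hy'']

/-- Extension of positions. -/
def ExtM (p q : Γ × (Γ → Set X)) : Prop := p.1 ≤ q.1 ∧ ∀ β < p.1, q.2 β = p.2 β

theorem ExtM.refl (p : Γ × (Γ → Set X)) : ExtM p p := ⟨le_rfl, fun _ _ => rfl⟩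

theorem ExtM.trans {p q r : Γ × (Γ → Set X)} (h1 : ExtM p q) (h2 : ExtM q r) : ExtM p r :=
  ⟨h1.1.trans h2.1, fun β hβ => (h2.2 β (hβ.trans_le h1.1)).trans (h1.2 β hβ)⟩

theorem exists_ub (hb : ∀ (ξ : Γ) (g : Iio ξ → Γ), ∃ β, ∀ η, g η < β) (ξ : Γ)
    (F : Iio ξ → Γ × (Γ → Set X)) (hF : ∀ η ζ, ExtM (F η) (F ζ) ∨ ExtM (F ζ) (F η)) :
    ∃ q, ∀ η, ExtM (F η) q := by
  classical
  obtain ⟨β, hβ⟩ := hb ξ fun η => (F η).1
  refine ⟨(β, fun δ => if h : ∃ η, δ < (F η).1 then (F h.choose).2 δ else ∅),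
    fun η => ⟨(hβ η).le, fun δ hδ => ?_⟩⟩
  have h : ∃ η, δ < (F η).1 := ⟨η, hδ⟩
  simp only [dif_pos h]
  rcases hF η h.choose with h' | h'
  · exact h'.2 δ hδ
  · exact (h'.2 δ h.choose_spec).symm

theorem Red.step {τ : (Γ → Set X) → Γ → Set X} (h : Red τ) (e : X → Γ → Bool)
    (he : Function.Injective e) (hsurj : ∀ α : Γ, ∃ π : Γ → Γ, ∀ ξ, ∃ β, α < β ∧ π β = ξ)
    (ξ : Γ) (p : Γ × (Γ → Set X)) :
    ∃ (q : Bool → Γ × (Γ → Set X)) (v : Bool) (β₀ β : Γ),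
      (∀ i, ExtM p (q i) ∧ ξ < (q i).1 ∧ β₀ < (q i).1 ∧ β < (q i).1 ∧
        τ (q i).2 β₀ ⊆ {x | e x ξ = v}) ∧
      Disjoint (τ (q false).2 β) (τ (q true).2 β) := by
  classical
  have hgt : ∀ α : Γ, ∃ β, α < β := fun α => by
    obtain ⟨π, hπ⟩ := hsurj α
    obtain ⟨β, hβ, -⟩ := hπ α
    exact ⟨β, hβ⟩
  let a₀ : Γ → Set X := Function.update p.2 p.1 {x | e x ξ = true}
  obtain ⟨α₁, hα₁⟩ := hgt (max p.1 ξ)
  have hp1 : p.1 < α₁ := (le_max_left _ _).trans_lt hα₁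
  have hξ1 : ξ < α₁ := (le_max_right _ _).trans_lt hα₁
  obtain ⟨a₁, a₂, β, h1, h2, hβ, hd⟩ := h.split e he hsurj α₁ a₀
  obtain ⟨β', hβ'⟩ := hgt β
  have hv : ∃ v : Bool, τ a₀ p.1 ⊆ {x | e x ξ = v} := by
    have ha : a₀ p.1 = {x | e x ξ = true} := Function.update_self _ _ _
    rcases h.side a₀ p.1 with s | s
    · exact ⟨true, by rw [s, ha]⟩
    · refine ⟨false, ?_⟩
      rw [s, ha]
      intro x hx
      have hx' : ¬ e x ξ = true := hx
      simpa using hx'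
  obtain ⟨v, hv⟩ := hv
  have key : ∀ a' : Γ → Set X, (∀ δ < α₁, a' δ = a₀ δ) →
      ExtM p (β', a') ∧ ξ < β' ∧ p.1 < β' ∧ β < β' ∧ τ a' p.1 ⊆ {x | e x ξ = v} := by
    intro a' ha'
    refine ⟨⟨(hp1.trans (hβ.trans hβ')).le, fun δ hδ => ?_⟩, hξ1.trans (hβ.trans hβ'),
      hp1.trans (hβ.trans hβ'), hβ', ?_⟩
    · show a' δ = p.2 δ
      rw [ha' δ (hδ.trans hp1)]
      exact Function.update_of_ne hδ.ne _ _
    · rw [h.loc a' a₀ p.1 fun δ hδ => ha' δ (hδ.trans_lt hp1)]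
      exact hv
  refine ⟨fun i => (β', if i = true then a₂ else a₁), v, p.1, β, fun i => ?_, by simpa using hd⟩
  cases i
  · exact key a₁ h1
  · exact key a₂ h2

/-- The perfect tree of plays. -/
theorem Red.tree [WellFoundedLT Γ] {τ : (Γ → Set X) → Γ → Set X} (h : Red τ)
    (e : X → Γ → Bool) (he : Function.Injective e)
    (hsurj : ∀ α : Γ, ∃ π : Γ → Γ, ∀ ξ, ∃ β, α < β ∧ π β = ξ)
    (hb : ∀ (ξ : Γ) (g : Iio ξ → Γ), ∃ β, ∀ η, g η < β) :
    ∃ (c : (Σ ξ : Γ, (Iio ξ → Bool)) → Bool) (x : (Γ → Bool) → X), Function.Injective x ∧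
      ∀ b ξ, e (x b) ξ = c ⟨ξ, fun η => b η⟩ := by
  classical
  choose q v β₀ β hq hd using h.step e he hsurj
  let ub : (ξ : Γ) → (Iio ξ → Γ × (Γ → Set X)) → Γ × (Γ → Set X) := fun ξ F =>
    if h : ∃ q, ∀ η, ExtM (F η) q then h.choose else (ξ, fun _ => ∅)
  have hub : ∀ ξ F, (∃ q, ∀ η, ExtM (F η) q) → ∀ η, ExtM (F η) (ub ξ F) := fun ξ F h η => by
    simp only [ub, dif_pos h]
    exact h.choose_spec η
  let P : (Γ → Bool) → Γ → Γ × (Γ → Set X) := fun b => (wellFounded_lt (α := Γ)).fix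
    (fun ξ ih => q ξ (ub ξ (fun η => ih η η.2)) (b ξ))
  have hP : ∀ b ξ, P b ξ = q ξ (ub ξ (fun η => P b η)) (b ξ) := fun b ξ => by
    simp only [P]
    rw [WellFounded.fix_eq]
  have hmono : ∀ b ξ, ∀ η < ξ, ExtM (P b η) (P b ξ) := by
    intro b ξ
    induction ξ using WellFoundedLT.induction with
    | ind ξ ih =>
      intro η hη
      have hch : ∃ q, ∀ η : Iio ξ, ExtM (P b η) q := by
        refine exists_ub hb ξ _ fun η ζ => ?_
        rcases lt_trichotomy (η : Γ) ζ with h | h | h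
        · exact Or.inl (ih ζ ζ.2 η h)
        · rw [h]; exact Or.inl (ExtM.refl _)
        · exact Or.inr (ih η η.2 ζ h)
      rw [hP b ξ]
      exact (hub ξ _ hch ⟨η, hη⟩).trans (hq ξ _ (b ξ)).1
  have hloc : ∀ b b' ξ, (∀ η ≤ ξ, b η = b' η) → P b ξ = P b' ξ := by
    intro b b' ξ
    induction ξ using WellFoundedLT.induction with
    | ind ξ ih =>
      intro hbb
      rw [hP b ξ, hP b' ξ, hbb ξ le_rfl]
      have : (fun η : Iio ξ => P b η) = fun η : Iio ξ => P b' η :=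
        funext fun η => ih η η.2 fun ζ hζ => hbb ζ (hζ.trans η.2.le)
      rw [this]
  let U : (Γ → Bool) → Γ → Γ × (Γ → Set X) := fun b ξ => ub ξ (fun η => P b η)
  have hU : ∀ b b' ξ, (∀ η < ξ, b η = b' η) → U b ξ = U b' ξ := by
    intro b b' ξ hbb
    have : (fun η : Iio ξ => P b η) = fun η : Iio ξ => P b' η :=
      funext fun η => hloc b b' η fun ζ hζ => hbb ζ (hζ.trans_lt η.2)
    simp only [U, this]
  have hlen : ∀ b ξ, ξ < (P b ξ).1 := fun b ξ => by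
    rw [hP]; exact (hq ξ _ _).2.1
  let a : (Γ → Bool) → Γ → Set X := fun b δ => (P b δ).2 δ
  have ha : ∀ b ξ δ, δ < (P b ξ).1 → a b δ = (P b ξ).2 δ := by
    intro b ξ δ hδ
    rcases lt_trichotomy δ ξ with h | h | h
    · exact ((hmono b ξ δ h).2 δ (hlen b δ)).symm
    · subst h; rfl
    · exact (hmono b δ ξ h).2 δ hδ
  have hτ : ∀ b ξ δ, δ < (P b ξ).1 → τ (a b) δ = τ (P b ξ).2 δ := fun b ξ δ hδ =>
    h.loc _ _ _ fun ε hε => ha b ξ ε (hε.trans_lt hδ)
  choose x hx using fun b => h.ne (a b)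
  have hxm : ∀ b ξ δ, δ < (q ξ (U b ξ) (b ξ)).1 → x b ∈ τ (q ξ (U b ξ) (b ξ)).2 δ := by
    intro b ξ δ hδ
    have e1 : P b ξ = q ξ (U b ξ) (b ξ) := hP b ξ
    rw [← e1] at hδ ⊢
    rw [← hτ b ξ δ hδ]
    exact mem_iInter.1 (hx b) δ
  refine ⟨fun s => v s.1 (U (fun η => if h : η < s.1 then s.2 ⟨η, h⟩ else false) s.1), x,
    ?_, fun b ξ => ?_⟩
  · intro b b' hbb
    by_contra hne
    have hne' : {ξ | b ξ ≠ b' ξ}.Nonempty := by
      by_contra hc
      apply hne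
      funext ξ
      by_contra hξ
      exact hc ⟨ξ, hξ⟩
    obtain ⟨ξ, hξ, hmin⟩ := (wellFounded_lt (α := Γ)).has_min _ hne'
    have hUU : U b ξ = U b' ξ := hU b b' ξ fun η hη => by
      by_contra hc
      exact hmin η hc hη
    have m1 := hxm b ξ _ (hq ξ (U b ξ) (b ξ)).2.2.2.1
    have m2 := hxm b' ξ _ (hq ξ (U b' ξ) (b' ξ)).2.2.2.1
    rw [← hUU, ← hbb] at m2
    have hξ' : b ξ ≠ b' ξ := hξ
    have hdd := hd ξ (U b ξ)
    cases h1 : b ξ <;> cases h2 : b' ξ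
    · exact hξ' (h1.trans h2.symm)
    · rw [h1] at m1
      rw [h2] at m2
      exact Set.disjoint_left.1 hdd m1 m2
    · rw [h1] at m1
      rw [h2] at m2
      exact Set.disjoint_left.1 hdd m2 m1
    · exact hξ' (h1.trans h2.symm)
  · have m1 := hxm b ξ _ (hq ξ (U b ξ) (b ξ)).2.2.1
    have m2 := (hq ξ (U b ξ) (b ξ)).2.2.2.2 m1
    have e1 : U (fun η => if h : η < ξ then b η else false) ξ = U b ξ :=
      hU _ _ ξ fun η hη => dif_pos hη
    show e (x b) ξ = v ξ (U (fun η => if h : η < ξ then b η else false) ξ)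
    rw [e1]
    exact m2

/-- Transfinite selection of pairs of pairwise distinct points. -/
theorem exists_sel {ι V : Type} {l : Cardinal} (hl : ℵ₀ ≤ l) (hι : #ι ≤ l)
    (S : ι → Set V) (hS : ∀ i, l ≤ #(S i)) :
    ∃ u w : ι → V, Function.Injective u ∧ (∀ i, w i ∈ S i) ∧ ∀ i j, u i ≠ w j := by
  classical
  obtain ⟨_, _, hord⟩ := Cardinal.exists_ord_eq_type_lt ι
  let Zs : (i : ι) → (Iio i → V × V) → Set V := fun i G =>
    range (fun j => (G j).1) ∪ range (fun j => (G j).2)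
  have hZ : ∀ i G, #(Zs i G) < l := by
    intro i G
    have h1 : #(Iio i) < l := (Cardinal.mk_Iio_lt i hord).trans_le hι
    exact (mk_union_le _ _).trans_lt
      (add_lt_of_lt hl (mk_range_le.trans_lt h1) (mk_range_le.trans_lt h1))
  have hP : ∀ i (Z : Set V), #Z < l → ∃ p : V × V, p.2 ∈ S i ∧ p.1 ≠ p.2 ∧ p.1 ∉ Z ∧
      p.2 ∉ Z := by
    intro i Z hZ
    have h1 : ∀ Z : Set V, #Z < l → ∃ y ∈ S i, y ∉ Z := fun Z hZ =>
      not_subset.1 fun hs => absurd ((hS i).trans (mk_le_mk_of_subset hs)) (not_le.2 hZ)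
    obtain ⟨y, hy, hyZ⟩ := h1 Z hZ
    obtain ⟨z, -, hz⟩ := h1 (insert y Z)
      (mk_insert_le.trans_lt (add_lt_of_lt hl hZ (one_lt_aleph0.trans_le hl)))
    exact ⟨(z, y), hy, fun h => hz (Or.inl h), fun h => hz (Or.inr h), hyZ⟩
  choose c hc using fun i G => hP i (Zs i G) (hZ i G)
  let F : ι → V × V := (wellFounded_lt (α := ι)).fix (fun i G => c i (fun j => G j.1 j.2))
  have hF : ∀ i, F i = c i (fun j => F j.1) := fun i => by
    simp only [F]
    rw [WellFounded.fix_eq]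
  have key : ∀ i, (F i).2 ∈ S i ∧ (F i).1 ≠ (F i).2 ∧ (F i).1 ∉ Zs i (fun j => F j.1) ∧
      (F i).2 ∉ Zs i (fun j => F j.1) := fun i => by
    have := hc i (fun j => F j.1)
    rwa [← hF i] at this
  refine ⟨fun i => (F i).1, fun i => (F i).2, fun i j hij => ?_, fun i => (key i).1,
    fun j i hj => ?_⟩
  · rcases lt_trichotomy j i with hji | hji | hij'
    · exact absurd (Or.inl ⟨⟨j, hji⟩, hij.symm⟩) (key i).2.2.1
    · exact hji.symm
    · exact absurd (Or.inl ⟨⟨i, hij'⟩, hij⟩) (key j).2.2.1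
  · rcases lt_trichotomy j i with hji | rfl | hij
    · exact (key i).2.2.2 (Or.inl ⟨⟨j, hji⟩, hj⟩)
    · exact (key j).2.1 hj
    · exact (key j).2.2.1 (Or.inr ⟨⟨i, hij⟩, hj.symm⟩)

/-- If the set is coded by the bits below some round, there is no winning strategy. -/
theorem Red.short {τ : (Γ → Set X) → Γ → Set X} (h : Red τ) (α : Γ)
    (e : X → Iio α → Bool) (he : Function.Injective e) : False := by
  classical
  let a : Γ → Set X := fun β => if hβ : β < α then {x | e x ⟨β, hβ⟩ = true} else ∅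
  obtain ⟨y, hy⟩ := h.ne a
  rw [mem_iInter] at hy
  apply h.nosing a α y
  apply Subset.antisymm
  · intro z hz
    apply he
    funext β
    have hz' : z ∈ τ a β := mem_iInter₂.1 hz β β.2.le
    have hy' := hy β
    have ea : a β = {x | e x β = true} := dif_pos β.2
    rcases h.side a β with s | s
    · rw [s, ea] at hz' hy'
      exact (show e z β = true from hz').trans (show e y β = true from hy').symm
    · rw [s, ea] at hz' hy'
      have hz'' : ¬ e z β = true := hz'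
      have hy'' : ¬ e y β = true := hy'
      simp only [Bool.not_eq_true] at hz'' hy''
      rw [hz'', hy'']
  · rintro z rfl
    exact mem_iInter₂.2 fun β _ => hy β

end Pool.Agent.Lib.MP_446da5_lc
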