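import Mathlib
import Pool.Agent.Lib.MP_446da5_lc.Main

set_option autoImplicit false

namespace Pool.Agent.Lib.MP_446da5_lc

open Set Cardinal

theorem not_chooseWins {γ κ : Cardinal.{0}} (hγ : γ.IsRegular) (hκ : κ ≤ 2 ^ γ)
    (h : κ < 2 ^ γ ∨ (2 : Cardinal.{0}) ^ (2 ^< γ) ≤ 2 ^ γ ∨ ∃ δ < γ, κ ≤ 2 ^ δ) : ¬ ChooseWins κ γ := by
  classical
  intro hw
  obtain ⟨τ, hτ⟩ := exists_red hw
  have hΓ : #γ.ord.ToType = γ := mk_ord_toType γ
  have hX : #κ.ord.ToType = κ := mk_ord_toType κ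
  have hinf : ℵ₀ ≤ γ := hγ.aleph0_le
  have hIio : ∀ α : γ.ord.ToType, #(Iio α) < γ := fun α => by
    simpa using Cardinal.mk_Iio_lt α (by simp)
  have hbd : ∀ S : Set γ.ord.ToType, #S < γ → ∃ β, ∀ s ∈ S, s < β := by
    intro S hS
    rw [← not_isCofinal_iff]
    intro hc
    have := Order.cof_le hc
    rw [Ordinal.cof_toType, hγ.cof_ord] at this
    exact absurd this (not_le.2 hS)
  have hb : ∀ (ξ : γ.ord.ToType) (g : Iio ξ → γ.ord.ToType), ∃ β, ∀ η, g η < β := by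
    intro ξ g
    obtain ⟨β, hβ⟩ := hbd (range g) (mk_range_le.trans_lt (hIio ξ))
    exact ⟨β, fun η => hβ _ ⟨η, rfl⟩⟩
  have hsurj : ∀ α : γ.ord.ToType, ∃ π : γ.ord.ToType → γ.ord.ToType,
      ∀ ξ, ∃ β, α < β ∧ π β = ξ := by
    intro α
    have h1 : #(Iic α) < γ := by
      rw [← Iio_insert]
      exact mk_insert_le.trans_lt (add_lt_of_lt hinf (hIio α) (one_lt_aleph0.trans_le hinf))
    have h2 : #γ.ord.ToType ≤ #(Ioi α) := by
      by_contra hc
      rw [hΓ, not_le] at hc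
      have h3 := (mk_union_le (Iic α) (Ioi α)).trans_lt (add_lt_of_lt hinf h1 hc)
      rw [Iic_union_Ioi, mk_univ, hΓ] at h3
      exact lt_irrefl _ h3
    obtain ⟨j⟩ := (Cardinal.le_def _ _).1 h2
    have : Nonempty γ.ord.ToType := ⟨α⟩
    have hj : Function.Injective fun ξ => (j ξ : γ.ord.ToType) :=
      Subtype.val_injective.comp j.injective
    exact ⟨Function.invFun fun ξ => (j ξ : γ.ord.ToType), fun ξ =>
      ⟨j ξ, (j ξ).2, Function.leftInverse_invFun hj ξ⟩⟩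
  have hV : #(γ.ord.ToType → Bool) = 2 ^ γ := by simp
  rcases h with h | h | ⟨δ, hδ, h⟩
  · obtain ⟨e⟩ := (Cardinal.le_def κ.ord.ToType (γ.ord.ToType → Bool)).1 (by rwa [hX, hV])
    obtain ⟨-, x, hx, -⟩ := hτ.tree e e.injective hsurj hb
    have := mk_le_of_injective hx
    rw [hX, hV] at this
    exact absurd this (not_le.2 h)
  · let K := (Σ ξ : γ.ord.ToType, (Iio ξ → Bool)) → Bool
    let Φ : K → (γ.ord.ToType → Bool) → (γ.ord.ToType → Bool) :=
      fun c b ξ => c ⟨ξ, fun η => b η⟩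
    have hK : #K ≤ 2 ^ γ := by
      have h1 : #(Σ ξ : γ.ord.ToType, (Iio ξ → Bool)) ≤ γ * 2 ^< γ := by
        rw [mk_sigma]
        refine (sum_le_sum _ (fun _ => 2 ^< γ) fun ξ => ?_).trans ?_
        · simpa using le_powerlt 2 (hIio ξ)
        · simp
      have h2 : #K = 2 ^ #(Σ ξ : γ.ord.ToType, (Iio ξ → Bool)) := by
        simp only [K, ← power_def, mk_bool]
      rw [h2]
      refine (power_le_power_left two_ne_zero (h1.trans (mul_le_max_of_aleph0_le_left hinf))).trans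
        ?_
      rcases le_total γ (2 ^< γ) with h3 | h3
      · rwa [max_eq_right h3]
      · rw [max_eq_left h3]
    have hinf' : ℵ₀ ≤ 2 ^ γ := hinf.trans (cantor γ).le
    let ι := {c : K // Function.Injective (Φ c)} ⊕ κ.ord.ToType
    have hι : #ι ≤ 2 ^ γ := by
      simp only [ι, mk_sum, lift_id]
      exact (add_le_add ((mk_subtype_le _).trans hK) (hX.trans_le hκ)).trans
        (add_eq_self hinf').le
    let S : ι → Set (γ.ord.ToType → Bool) := Sum.elim (fun c => range (Φ c.1)) fun _ => univ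
    have hS : ∀ i, 2 ^ γ ≤ #(S i) := by
      rintro (c | x)
      · show 2 ^ γ ≤ #(range (Φ c.1))
        rw [mk_range_eq _ c.2, hV]
      · show 2 ^ γ ≤ #(univ : Set (γ.ord.ToType → Bool))
        rw [mk_univ, hV]
    obtain ⟨u, w, hu, hw, huw⟩ := exists_sel hinf' hι S hS
    have he : Function.Injective fun x : κ.ord.ToType => u (Sum.inr x) :=
      hu.comp Sum.inr_injective
    obtain ⟨c, x, hx, hc⟩ := hτ.tree _ he hsurj hb
    have hΦ : ∀ b, Φ c b = u (Sum.inr (x b)) := fun b => funext fun ξ => (hc b ξ).symm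
    have hinj : Function.Injective (Φ c) := fun b b' hbb => by
      rw [hΦ, hΦ] at hbb
      exact hx (he hbb)
    obtain ⟨b, hb'⟩ := hw (Sum.inl ⟨c, hinj⟩)
    exact huw (Sum.inr (x b)) (Sum.inl ⟨c, hinj⟩) ((hΦ b).symm.trans hb')
  · obtain ⟨S, hS⟩ := le_mk_iff_exists_set.1 (hδ.le.trans hΓ.ge)
    obtain ⟨α, hα⟩ := hbd S (hS.trans_lt hδ)
    have h1 : δ ≤ #(Iio α) := hS ▸ mk_le_mk_of_subset fun s hs => hα s hs
    have h2 : #κ.ord.ToType ≤ #(Iio α → Bool) := by
      rw [hX]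
      refine h.trans ?_
      simpa using power_le_power_left two_ne_zero h1
    obtain ⟨e⟩ := (Cardinal.le_def _ _).1 h2
    exact hτ.short α e e.injective

end Pool.Agent.Lib.MP_446da5_lc
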